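import Pool.Agent.Q88.MR.Stm

/-!
# The main term
-/

open MeasureTheory ProbabilityTheory Filter
open scoped Topology ENNReal

namespace Pool.Agent.Q88.MR

theorem t_AT (h1 : S_RAT) (h2 : S_UP) (h3 : S_LOW) : S_AT := by
  intro N d hN hd F hF1 hF
  obtain ⟨C, hC, hup⟩ := h2 d N hd
  have hfin : ∀ z, GN d N z ≠ ⊤ := fun z => ne_top_of_le_ne_top ENNReal.ofReal_ne_top (hup z)
  have hs : ∀ z, ∑' y, GN d N (y - z) * F y = ∑ y ∈ hF.toFinset, GN d N (y - z) * F y := by
    intro z
    refine tsum_eq_sum fun y hy => ?_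
    have : F y = 0 := by simpa using hy
    rw [this, mul_zero]
  have hs2 : ∑' y, F y = ∑ y ∈ hF.toFinset, F y := by
    refine tsum_eq_sum fun y hy => ?_
    simpa using hy
  have hFt : ∀ y, F y ≠ ⊤ := fun y => ne_top_of_le_ne_top ENNReal.one_ne_top (hF1 y)
  rw [hs2, ENNReal.toReal_sum (fun y _ => hFt y)]
  have e : ∀ z, (∑' y, GN d N (y - z) * F y).toReal / (GN d N z).toReal =
      ∑ y ∈ hF.toFinset, (GN d N (y - z)).toReal / (GN d N z).toReal * (F y).toReal := by
    intro z
    rw [hs, ENNReal.toReal_sum (fun y _ => ENNReal.mul_ne_top (hfin _) (hFt y)), Finset.sum_div]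
    refine Finset.sum_congr rfl fun y _ => ?_
    rw [ENNReal.toReal_mul]
    ring
  simp only [e]
  have : ∀ y ∈ hF.toFinset, Tendsto (fun z : Fin d → ℤ =>
      (GN d N (y - z)).toReal / (GN d N z).toReal * (F y).toReal) cofinite (𝓝 (F y).toReal) := by
    intro y _
    have := (h1 d N hN hd y).mul_const (F y).toReal
    rwa [one_mul] at this
  exact tendsto_finset_sum _ this

end Pool.Agent.Q88.MR
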