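import Pool.Agent.Q88.MR.Stm

/-!
# Chapman-Kolmogorov for simple random walk
-/

open MeasureTheory ProbabilityTheory Filter
open scoped Topology ENNReal

namespace Pool.Agent.Q88.MR

theorem q_succ (d n : ℕ) (x : Fin d → ℤ) :
    q d (n + 1) x = (2 * d : ℝ≥0∞)⁻¹ * ∑ s : Fin d × Bool, q d n (x - vec s) := rfl

theorem vec_neg {d : ℕ} (s : Fin d × Bool) : vec (s.1, !s.2) = -vec s := by
  obtain ⟨i, b⟩ := s
  cases b <;> simp [vec]

theorem norm_vec {d : ℕ} (s : Fin d × Bool) : ‖vec s‖ ≤ 1 := by
  have h : ‖(Pi.single s.1 1 : Fin d → ℤ)‖ ≤ 1 := by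
    rw [pi_norm_le_iff_of_nonneg zero_le_one]
    intro j
    by_cases hj : j = s.1
    · subst hj; simp
    · simp [hj]
  unfold vec
  split_ifs
  · exact h
  · rwa [norm_neg]

theorem t_CK : S_CK := by
  intro d hd
  have hcard : ∑ s : Fin d × Bool, (1 : ℝ≥0∞) = 2 * d := by
    simp [mul_comm]
  have hd0 : (2 * d : ℝ≥0∞) ≠ 0 := by
    have : (d : ℝ≥0∞) ≠ 0 := by
      simp only [ne_eq, Nat.cast_eq_zero]; omega
    simp [this]
  have hdt : (2 * d : ℝ≥0∞) ≠ ⊤ := ENNReal.mul_ne_top (by simp) (ENNReal.natCast_ne_top d)
  refine ⟨?_, ?_, ?_, ?_⟩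
  · intro m
    induction m with
    | zero =>
      intro n x
      rw [tsum_eq_single 0]
      · simp [q]
      · intro y hy
        simp [q, hy]
    | succ m ih =>
      intro n x
      have h1 : ∀ y, q d (m + 1) y * q d n (x - y) =
          (2 * d : ℝ≥0∞)⁻¹ * ∑ s : Fin d × Bool, q d m (y - vec s) * q d n (x - y) := by
        intro y
        rw [q_succ, mul_assoc, Finset.sum_mul]
      simp only [h1]
      rw [ENNReal.tsum_mul_left, Summable.tsum_finsetSum (fun _ _ => ENNReal.summable)]
      have h2 : ∀ s : Fin d × Bool, ∑' y, q d m (y - vec s) * q d n (x - y) =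
          q d (m + n) (x - vec s) := by
        intro s
        rw [← ih n (x - vec s), ← (Equiv.subRight (vec s)).tsum_eq
          (fun y => q d m y * q d n (x - vec s - y))]
        refine tsum_congr fun y => ?_
        simp only [Equiv.subRight_apply]
        congr 2
        abel
      simp only [h2]
      rw [show m + 1 + n = (m + n) + 1 by ring, q_succ]
  · intro n
    induction n with
    | zero =>
      rw [tsum_eq_single 0]
      · simp [q]
      · intro y hy
        simp [q, hy]
    | succ n ih =>
      simp only [q_succ]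
      rw [ENNReal.tsum_mul_left, Summable.tsum_finsetSum (fun _ _ => ENNReal.summable)]
      have h2 : ∀ s : Fin d × Bool, ∑' y, q d n (y - vec s) = 1 := by
        intro s
        rw [← ih, ← (Equiv.subRight (vec s)).tsum_eq (fun y => q d n y)]
        rfl
      simp only [h2, hcard]
      exact ENNReal.inv_mul_cancel hd0 hdt
  · intro n
    induction n with
    | zero =>
      intro x hx
      have : x = 0 := by
        by_contra h
        exact hx (by simp [q, h])
      simp [this]
    | succ n ih =>
      intro x hx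
      have h1 : ∃ s : Fin d × Bool, q d n (x - vec s) ≠ 0 := by
        by_contra h
        push Not at h
        apply hx
        rw [q_succ]
        simp [h]
      obtain ⟨s, hs⟩ := h1
      calc ‖x‖ = ‖(x - vec s) + vec s‖ := by rw [sub_add_cancel]
        _ ≤ ‖x - vec s‖ + ‖vec s‖ := norm_add_le _ _
        _ ≤ n + 1 := add_le_add (ih _ hs) (norm_vec s)
        _ = ((n + 1 : ℕ) : ℝ) := by push_cast; ring
  · intro n
    induction n with
    | zero => intro x; simp [q]
    | succ n ih =>
      intro x
      rw [q_succ, q_succ]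
      congr 1
      let e : Fin d × Bool ≃ Fin d × Bool :=
        Equiv.prodCongr (Equiv.refl _) Equiv.boolNot
      rw [← Equiv.sum_comp e]
      refine Finset.sum_congr rfl fun s _ => ?_
      have h1 : vec (e s) = -vec s := vec_neg s
      rw [h1, ← ih (x - vec s)]
      congr 1
      abel

end Pool.Agent.Q88.MR
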