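import Pool.Agent.Q88.MR.Stm

/-!
# The convolution of Green functions
-/

open MeasureTheory ProbabilityTheory Filter
open scoped Topology ENNReal

namespace Pool.Agent.Q88.MR

theorem GN_zero (d : ℕ) (x : Fin d → ℤ) : GN d 0 x = if x = 0 then 1 else 0 := by
  unfold GN
  rw [tsum_eq_single (default : Fin 0 → ℕ)]
  · simp [q]
  · intro b hb
    exact absurd (Subsingleton.elim b default) hb

theorem GN_succ (h : S_CK) (d k : ℕ) (hd : 1 ≤ d) (x : Fin d → ℤ) :
    GN d (k + 1) x = ∑' y, (∑' n, q d n y) * GN d k (x - y) := by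
  unfold GN
  rw [← (Fin.consEquiv (fun _ => ℕ)).tsum_eq
    (fun n : Fin (k + 1) → ℕ => q d (∑ i, n i) x), ENNReal.tsum_prod']
  have h1 : ∀ (m : ℕ) (n : Fin k → ℕ), q d (∑ i, (Fin.consEquiv (fun _ => ℕ)) (m, n) i) x =
      ∑' y, q d m y * q d (∑ i, n i) (x - y) := by
    intro m n
    rw [(h d hd).1 m (∑ i, n i) x]
    congr 1
    simp [Fin.consEquiv, Fin.sum_univ_succ]
  have h2 : ∀ m : ℕ, ∑' n : Fin k → ℕ, q d (∑ i, (Fin.consEquiv (fun _ => ℕ)) (m, n) i) x =
      ∑' y, q d m y * ∑' n : Fin k → ℕ, q d (∑ i, n i) (x - y) := by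
    intro m
    simp only [h1]
    rw [ENNReal.tsum_comm]
    exact tsum_congr fun y => ENNReal.tsum_mul_left
  simp only [h2]
  rw [ENNReal.tsum_comm]
  exact tsum_congr fun y => ENNReal.tsum_mul_right

theorem t_CV (h : S_CK) : S_CV := by
  intro d k hd
  induction k with
  | zero =>
    intro x
    rw [GN_zero]
    rfl
  | succ k ih =>
    intro x
    rw [GN_succ h d k hd x]
    show ∑' y, (∑' n, q d n y) * cv (fun x => ∑' n, q d n x) k (x - y) = _
    simp only [ih]

end Pool.Agent.Q88.MR
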