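import Pool.Agent.Q88.MR.Stm

/-!
# The limit exists
-/

open MeasureTheory ProbabilityTheory Filter
open scoped Topology ENNReal

universe u

namespace Pool.Agent.Q88.MR

theorem t_FIN (h1 : S_UL.{u}) (h2 : S_FS.{u}) (h3 : S_RT) (h4 : S_SM) (h5 : S_AT) (h6 : S_UP)
    (h7 : S_LOW) : S_FIN.{u} := by
  intro N d hN hd A hA Ω _ P _ S hS
  have hd1 : 1 ≤ d := by omega
  obtain ⟨C, hC, hup⟩ := h6 d N hd
  obtain ⟨c, hc, hlow⟩ := h7 d N hN hd
  have hfin : ∀ z, GN d N z ≠ ⊤ := fun z => ne_top_of_le_ne_top ENNReal.ofReal_ne_top (hup z)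
  have hpos : ∀ z, 0 < (GN d N z).toReal := by
    intro z
    refine ENNReal.toReal_pos ?_ (hfin z)
    refine (lt_of_lt_of_le ?_ (hlow z)).ne'
    rw [ENNReal.ofReal_pos]
    have := norm_nonneg z
    positivity
  set g : (Fin d → ℤ) → ℝ := fun z => (GN d N z).toReal with hg
  set p : (Fin d → ℤ) → ℝ := fun z => (P {ω | ∃ n : Fin N → ℕ, z + ∑ i, S i (n i) ω ∈ A}).toReal
    with hp
  have : Nonempty (Fin d) := ⟨⟨0, hd1⟩⟩
  have : Infinite (Fin d → ℤ) := Pi.infinite_of_right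
  have : NeBot (cofinite : Filter (Fin d → ℤ)) := cofinite_neBot
  have key : ∀ ε : ℝ, 0 < ε → ∃ L : ℝ, ∀ᶠ z in cofinite, |p z / g z - L| ≤ 2 * ε := by
    intro ε hε
    obtain ⟨T, hT⟩ := h3 N d hN hd A ε hε
    have hsm := h4 N d hN hd A T ε hε
    obtain ⟨hF1, hF2⟩ := h2 N d hd1 Ω P S hS T A
    have hat := h5 N d hN hd (FT P S T A) hF1 hF2
    refine ⟨(∑' y, FT P S T A y).toReal, ?_⟩
    have hev := hat.eventually (Metric.closedBall_mem_nhds _ hε)
    filter_upwards [hT, hsm, hev] with z hz1 hz2 hz3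
    rw [Real.dist_eq] at hz3
    obtain ⟨hu, hl⟩ := h1 N d hd1 Ω P S hS T A z
    set a : ℝ≥0∞ := ∑' y, GN d N (y - z) * FT P S T A y with ha
    have hafin : a ≠ ⊤ := by
      refine ne_top_of_le_ne_top ?_ hl
      refine ENNReal.add_ne_top.2 ⟨measure_ne_top _ _, ?_⟩
      exact ne_top_of_le_ne_top (ENNReal.mul_ne_top ENNReal.ofReal_ne_top (hfin z)) hz1
    have hu2 : p z ≤ a.toReal + ε * g z := by
      have h8 : P {ω | ∃ n : Fin N → ℕ, z + ∑ i, S i (n i) ω ∈ A} ≤
          a + ENNReal.ofReal ε * GN d N z := hu.trans (by gcongr)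
      have h9 := ENNReal.toReal_mono (ENNReal.add_ne_top.2 ⟨hafin,
        ENNReal.mul_ne_top ENNReal.ofReal_ne_top (hfin z)⟩) h8
      rwa [ENNReal.toReal_add hafin (ENNReal.mul_ne_top ENNReal.ofReal_ne_top (hfin z)),
        ENNReal.toReal_mul, ENNReal.toReal_ofReal hε.le] at h9
    have hl2 : a.toReal ≤ p z + ε * g z := by
      have h8 : a ≤ P {ω | ∃ n : Fin N → ℕ, z + ∑ i, S i (n i) ω ∈ A} +
          ENNReal.ofReal ε * GN d N z := hl.trans (by gcongr)
      have h9 := ENNReal.toReal_mono (ENNReal.add_ne_top.2 ⟨measure_ne_top _ _,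
        ENNReal.mul_ne_top ENNReal.ofReal_ne_top (hfin z)⟩) h8
      rwa [ENNReal.toReal_add (measure_ne_top _ _)
        (ENNReal.mul_ne_top ENNReal.ofReal_ne_top (hfin z)),
        ENNReal.toReal_mul, ENNReal.toReal_ofReal hε.le] at h9
    have hgz : 0 < g z := hpos z
    have h10 : |p z / g z - a.toReal / g z| ≤ ε := by
      rw [← sub_div, abs_div, abs_of_pos hgz, div_le_iff₀ hgz, abs_le]
      constructor <;> linarith
    calc |p z / g z - (∑' y, FT P S T A y).toReal|
        = |(p z / g z - a.toReal / g z) + (a.toReal / g z - (∑' y, FT P S T A y).toReal)| := by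
          congr 1; ring
      _ ≤ |p z / g z - a.toReal / g z| + |a.toReal / g z - (∑' y, FT P S T A y).toReal| :=
          abs_add_le _ _
      _ ≤ ε + ε := add_le_add h10 hz3
      _ = 2 * ε := by ring
  have hcau : Cauchy (map (fun z => p z / g z) cofinite) := by
    rw [Metric.cauchy_iff]
    refine ⟨inferInstance, fun ε hε => ?_⟩
    obtain ⟨L, hL⟩ := key (ε / 8) (by positivity)
    refine ⟨Metric.closedBall L (2 * (ε / 8)), ?_, ?_⟩
    · rw [mem_map]
      filter_upwards [hL] with z hz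
      rw [Set.mem_preimage, Metric.mem_closedBall, Real.dist_eq]
      exact hz
    · intro x hx y hy
      rw [Metric.mem_closedBall] at hx hy
      calc dist x y ≤ dist x L + dist y L := dist_triangle_right x y L
        _ ≤ 2 * (ε / 8) + 2 * (ε / 8) := add_le_add hx hy
        _ < ε := by linarith
  exact cauchy_map_iff_exists_tendsto.1 hcau

end Pool.Agent.Q88.MR
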