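import Pool.Agent.Q88.MR.Hit

/-!
# The window function is bounded by one and has finite support
-/

open MeasureTheory ProbabilityTheory Filter
open scoped Topology ENNReal

universe u

namespace Pool.Agent.Q88.MR

theorem ball_fin {d : ℕ} (x : Fin d → ℤ) (r : ℝ) : {y : Fin d → ℤ | ‖x - y‖ ≤ r}.Finite := by
  have h : {y : Fin d → ℤ | ‖x - y‖ ≤ r} = Metric.closedBall x r := by
    ext y
    rw [Metric.mem_closedBall, dist_comm, dist_eq_norm]
    rfl
  rw [h]
  exact (isCompact_closedBall x r).finite_of_discrete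

theorem t_FS (h1 : S_LAW.{u}) (h2 : S_CK) : S_FS.{u} := by
  intro N d hd Ω _ P _ S h T A
  have hle : ∀ y, FT P S T A y ≤ ∑ a ∈ A, q d (∑ _i : Fin N, T) (a - y) := by
    intro y
    rw [← lintegral_hit h1 hd P S h A y (fun _ => T)]
    exact lintegral_mono fun ω => hit_mul_inv_le T A y _ _
  refine ⟨fun y => ?_, ?_⟩
  · calc FT P S T A y ≤ ∫⁻ ω, hit A y (fun i j => S i j ω) (fun _ => T) ∂P :=
          lintegral_mono fun ω => hit_mul_inv_le T A y _ _
      _ ≤ ∫⁻ _, 1 ∂P := lintegral_mono fun ω => by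
          rcases hit_cases A y (fun i j => S i j ω) (fun _ => T) with e | e <;> rw [e]
          simp
      _ = 1 := by simp
  · refine Set.Finite.subset (A.finite_toSet.biUnion fun a _ =>
      ball_fin a ((∑ _i : Fin N, T : ℕ) : ℝ)) ?_
    intro y hy
    rw [Set.mem_ofPred_eq] at hy
    have h3 : ∑ a ∈ A, q d (∑ _i : Fin N, T) (a - y) ≠ 0 := fun e => hy (le_antisymm
      ((hle y).trans (le_of_eq e)) zero_le)
    obtain ⟨a, ha, h4⟩ := Finset.exists_ne_zero_of_sum_ne_zero h3
    simp only [Set.mem_iUnion]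
    exact ⟨a, ha, (h2 d hd).2.2.1 _ _ h4⟩

end Pool.Agent.Q88.MR
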