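import Pool.Agent.Q88.MR.Stm
import Pool.Agent.W453.SCH.HB

namespace Pool.Agent.Q88.MR

theorem t_HB : S_HB := by
  intro M
  obtain ⟨C, hC, h⟩ := Pool.Agent.W453.SCH.t_HB M
  refine ⟨C, hC, fun t ht n => ?_⟩
  have h0 := h 0 (by norm_num) t ht n
  have h1 := h 1 (by norm_num) t ht n
  have e : ∀ (t : ℝ) (n : ℤ), Pool.Agent.W793.SCH.hk t n = hk t n := fun _ _ => rfl
  simp only [Pool.Agent.W793.SCH.hd, if_true, e, one_ne_zero, if_false, zero_add, pow_one] at h0 h1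
  refine ⟨h0, ?_⟩
  rwa [Real.sq_sqrt (by linarith)] at h1

end Pool.Agent.Q88.MR
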