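import Pool.Agent.Q88.MR.LAW

/-!
# Independence of sums of different walks
-/

open MeasureTheory ProbabilityTheory Filter
open scoped Topology ENNReal

universe u

namespace Pool.Agent.Q88.MR

theorem t_IND : S_IND.{u} := by
  intro N d hd Ω _ P _ S h a b hab B C
  have hdis : Disjoint (Jk a) (Jk b) := by
    rw [Finset.disjoint_left]
    intro p h1 h2
    rw [mem_Jk] at h1 h2
    rcases hab p.1 with h3 | h3 <;> omega
  have hind := iIndepFun.indepFun_finset (f := Dn S) (Jk a) (Jk b) hdis h.indep
    (fun p => meas_Dn h p)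
  have hm : ∀ J : Finset (Fin N × ℕ), Measurable
      (fun g : J → Fin d → ℤ => ∑ p, g p) := fun J =>
    Finset.measurable_sum _ fun p _ => measurable_pi_apply p
  have h2 := hind.comp (hm (Jk a)) (hm (Jk b))
  have h3 := h2.measure_inter_preimage_eq_mul B C (MeasurableSet.of_discrete)
    (MeasurableSet.of_discrete)
  have e : ∀ (J : Finset (Fin N × ℕ)) (ω : Ω), ∑ p : J, Dn S p ω = ∑ p ∈ J, Dn S p ω := by
    intro J ω
    exact Finset.sum_coe_sort J (fun p => Dn S p ω)
  simp only [sum_S h]
  convert h3 using 2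
  · ext ω
    simp only [Set.mem_ofPred_eq, Set.mem_inter_iff, Set.mem_preimage, Function.comp_apply, e]
  · congr 1
    ext ω
    simp only [Set.mem_ofPred_eq, Set.mem_preimage, Function.comp_apply, e]
  · congr 1
    ext ω
    simp only [Set.mem_ofPred_eq, Set.mem_preimage, Function.comp_apply, e]

end Pool.Agent.Q88.MR
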