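import Pool.Agent.Q88.MR.LAW

/-!
# The Markov property
-/

open MeasureTheory ProbabilityTheory Filter
open scoped Topology ENNReal

universe u

namespace Pool.Agent.Q88.MR

/-- The paths as a function of the increments. -/
def Wp {N d : ℕ} (f : Fin N × ℕ → Fin d → ℤ) (i : Fin N) (n : ℕ) : Fin d → ℤ :=
  ∑ j ∈ Finset.range n, f (i, j)

theorem meas_Wp {N d : ℕ} : Measurable (Wp : (Fin N × ℕ → Fin d → ℤ) → Fin N → ℕ → Fin d → ℤ) := by
  refine measurable_pi_iff.2 fun i => measurable_pi_iff.2 fun n => ?_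
  exact Finset.measurable_sum _ fun j _ => measurable_pi_apply (i, j)

theorem law_Dn {N d : ℕ} (hd : 1 ≤ d) {Ω : Type u} [MeasurableSpace Ω] {P : Measure Ω}
    [IsProbabilityMeasure P] {S : Fin N → ℕ → Ω → Fin d → ℤ} (h : Walks P S) (p p' : Fin N × ℕ) :
    P.map (Dn S p) = P.map (Dn S p') := by
  refine Measure.ext_of_singleton fun x => ?_
  rw [Measure.map_apply (meas_Dn h p) (measurableSet_singleton x),
    Measure.map_apply (meas_Dn h p') (measurableSet_singleton x)]
  by_cases hx : ∃ s, x = vec s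
  · obtain ⟨s, rfl⟩ := hx
    exact (h.law p.1 p.2 s).trans (h.law p'.1 p'.2 s).symm
  · have h0 : ∀ p, P (Dn S p ⁻¹' {x}) = 0 := by
      intro p
      have h1 := Dn_ae hd h p
      rw [ae_iff] at h1
      refine measure_mono_null ?_ h1
      intro ω hω
      rw [Set.mem_ofPred_eq]
      rintro ⟨s, hs⟩
      exact hx ⟨s, by rw [← hs]; exact hω.symm⟩
    rw [h0, h0]

theorem same_law {N d : ℕ} (hd : 1 ≤ d) {Ω : Type u} [MeasurableSpace Ω] {P : Measure Ω}
    [IsProbabilityMeasure P] {S : Fin N → ℕ → Ω → Fin d → ℤ} (h : Walks P S)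
    (σ : Fin N × ℕ → Fin N × ℕ) (hσ : Function.Injective σ) :
    P.map (fun ω p => Dn S (σ p) ω) = P.map (fun ω p => Dn S p ω) := by
  have h1 : iIndepFun (Dn S) P := h.indep
  have h2 : iIndepFun (fun p => Dn S (σ p)) P := h1.precomp hσ
  rw [h1.map_fun_eq_infinitePi_map (fun p => meas_Dn h p),
    h2.map_fun_eq_infinitePi_map (fun p => meas_Dn h (σ p))]
  congr 1
  funext p
  exact law_Dn hd h _ _

theorem t_MK (hl : S_LAW.{u}) : S_MK.{u} := by
  intro N d hd Ω mΩ P _ S hS k h hh
  set D := Dn S with hD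
  have hmD : ∀ p, Measurable (D p) := fun p => meas_Dn hS p
  -- the shifted increments
  let σ : Fin N × ℕ → Fin N × ℕ := fun p => (p.1, k p.1 + p.2)
  have hσ : Function.Injective σ := by
    rintro ⟨i, n⟩ ⟨j, m⟩ e
    simp only [σ, Prod.mk.injEq] at e
    obtain ⟨rfl, e⟩ := e
    simpa using e
  have eS : ∀ ω, (fun i n => S i n ω) = Wp (fun p => D p ω) := by
    intro ω
    funext i n
    exact S_eq hS i n ω
  have eT : ∀ ω, (fun i n => S i (k i + n) ω - S i (k i) ω) = Wp (fun p => D (σ p) ω) := by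
    intro ω
    funext i n
    rw [S_eq hS i (k i + n) ω, S_eq hS i (k i) ω, Finset.sum_range_add]
    simp [Wp, σ, hD]
  have hlaw : ∀ y, ∫⁻ ω, h y (Wp (fun p => D (σ p) ω)) ∂P = ∫⁻ ω, h y (Wp (fun p => D p ω)) ∂P := by
    intro y
    have hm : Measurable (fun f => h y (Wp f)) := (hh y).comp meas_Wp
    have e1 := lintegral_map (μ := P) hm (measurable_pi_iff.2 fun p => hmD (σ p))
    have e2 := lintegral_map (μ := P) hm (measurable_pi_iff.2 fun p => hmD p)
    rw [← e1, ← e2, same_law hd hS σ hσ]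
  have hsum : ∀ ω, ∑ i, S i (k i) ω = ∑ p ∈ Jk k, D p ω := fun ω => sum_S hS k ω
  have hlk : ∀ y, P {ω | ∑ p ∈ Jk k, D p ω = y} = q d (∑ i, k i) y := by
    intro y
    rw [← hl N d hd Ω P S hS k y]
    simp only [hsum]
  -- the sigma algebras
  let m : Fin N × ℕ → MeasurableSpace Ω := fun p => MeasurableSpace.comap (D p) inferInstance
  have hm_le : ∀ p, m p ≤ mΩ := fun p => (hmD p).comap_le
  have hindep : iIndep m P := by
    have h1 : iIndepFun (Dn S) P := hS.indep
    exact h1.iIndep
  let A : Set (Fin N × ℕ) := {p | p.2 < k p.1}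
  let B : Set (Fin N × ℕ) := {p | k p.1 ≤ p.2}
  have hAB : Disjoint A B := by
    rw [Set.disjoint_left]
    intro p h1 h2
    exact absurd (show p.2 < k p.1 from h1) (not_lt.2 (show k p.1 ≤ p.2 from h2))
  have hI := indep_iSup_of_disjoint hm_le hindep hAB
  set MA := ⨆ i ∈ A, m i with hMA
  set MB := ⨆ i ∈ B, m i with hMB
  have hA_le : MA ≤ mΩ := iSup₂_le fun p _ => hm_le p
  have hB_le : MB ≤ mΩ := iSup₂_le fun p _ => hm_le p
  have hmA : ∀ p ∈ A, @Measurable _ _ MA _ (D p) := by
    intro p hp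
    have h1 : @Measurable _ _ (m p) _ (D p) := comap_measurable (D p)
    exact h1.mono (le_iSup₂_of_le p hp le_rfl) le_rfl
  have hmB : ∀ p ∈ B, @Measurable _ _ MB _ (D p) := by
    intro p hp
    have h1 : @Measurable _ _ (m p) _ (D p) := comap_measurable (D p)
    exact h1.mono (le_iSup₂_of_le p hp le_rfl) le_rfl
  have hX : @Measurable _ _ MA _ (fun ω => ∑ p ∈ Jk k, D p ω) := by
    refine @Finset.measurable_sum _ _ _ _ _ _ MA _ _ fun p hp => hmA p ?_
    exact (mem_Jk k p).1 hp
  have hW : @Measurable _ _ MB _ (fun ω => Wp (fun p => D (σ p) ω)) := by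
    have h1 : @Measurable _ _ MB _ (fun ω => fun p => D (σ p) ω) := by
      apply measurable_pi_lambda
      intro p
      exact hmB (σ p) (Nat.le_add_right _ _)
    exact meas_Wp.comp h1
  have hsplit : ∀ ω, h (∑ i, S i (k i) ω) (fun i n => S i (k i + n) ω - S i (k i) ω) =
      ∑' y, ({ω | ∑ p ∈ Jk k, D p ω = y}.indicator (fun _ => (1 : ℝ≥0∞)) ω) *
        h y (Wp (fun p => D (σ p) ω)) := by
    intro ω
    rw [eT ω, hsum ω, tsum_eq_single (∑ p ∈ Jk k, D p ω)]
    · rw [Set.indicator_of_mem (by exact rfl), one_mul]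
    · intro y hy
      rw [Set.indicator_of_notMem (by exact fun e => hy e.symm), zero_mul]
  rw [lintegral_congr hsplit, lintegral_tsum]
  · refine tsum_congr fun y => ?_
    have hf : @Measurable _ _ MA _ ({ω | ∑ p ∈ Jk k, D p ω = y}.indicator (fun _ => (1 : ℝ≥0∞))) := by
      refine Measurable.indicator measurable_const ?_
      exact hX (measurableSet_singleton y)
    have hg : @Measurable _ _ MB _ (fun ω => h y (Wp (fun p => D (σ p) ω))) := (hh y).comp hW
    rw [lintegral_mul_eq_lintegral_mul_lintegral_of_independent_measurableSpace hA_le hB_le hI hf hg]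
    congr 1
    · have hms : MeasurableSet[mΩ] {ω | ∑ p ∈ Jk k, D p ω = y} := hA_le _ (hX (measurableSet_singleton y))
      rw [lintegral_indicator hms]
      simp only [lintegral_const, one_mul, Measure.restrict_apply MeasurableSet.univ,
        Set.univ_inter]
      exact hlk y
    · rw [hlaw y]
      exact lintegral_congr fun ω => by rw [eS ω]
  · intro y
    refine Measurable.aemeasurable ?_
    refine Measurable.mul ?_ ?_
    · exact Measurable.indicator measurable_const (hA_le _ (hX (measurableSet_singleton y)))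
    · exact (hh y).comp (hW.mono hB_le le_rfl)

end Pool.Agent.Q88.MR
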