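import Pool.Agent.Q88.MR.Stm

/-!
# The pointwise inequalities
-/

open MeasureTheory ProbabilityTheory Filter
open scoped Topology ENNReal

namespace Pool.Agent.Q88.MR

theorem far_iff {N : ℕ} (T : ℕ) (n m : Fin N → ℕ) :
    far T n m ↔ ¬ ∀ i, n i ≤ m i + T ∧ m i ≤ n i + T := by
  unfold far
  push Not
  refine exists_congr fun i => ?_
  constructor
  · rintro (h | h) h2 <;> omega
  · intro h
    by_cases h2 : n i ≤ m i + T
    · left; exact h h2
    · right; omega

theorem window_fin {N : ℕ} (T : ℕ) (n : Fin N → ℕ) :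
    ∃ F : Finset (Fin N → ℕ), (∀ m, m ∈ F ↔ ∀ i, n i ≤ m i + T ∧ m i ≤ n i + T) ∧
      F.card ≤ (2 * T + 1) ^ N := by
  classical
  refine ⟨Fintype.piFinset fun i => Finset.Icc (n i - T) (n i + T), ?_, ?_⟩
  · intro m
    simp only [Fintype.mem_piFinset, Finset.mem_Icc]
    refine forall_congr' fun i => ?_
    omega
  · rw [Fintype.card_piFinset]
    calc ∏ i, (Finset.Icc (n i - T) (n i + T)).card ≤ ∏ _i : Fin N, (2 * T + 1) := by
          refine Finset.prod_le_prod' fun i _ => ?_
          rw [Nat.card_Icc]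
          omega
      _ = (2 * T + 1) ^ N := by simp

theorem tsum_ind_top {α : Type*} (s : Set α) (hs : s.Infinite) (c : ℝ≥0∞) (hc : c ≠ 0) :
    ∑' x, s.indicator (fun _ => c) x = ⊤ := by
  have : Infinite s := hs.to_subtype
  rw [← tsum_subtype]
  exact ENNReal.tsum_const_eq_top_of_ne_zero hc

theorem tsum_fin {α : Type*} (s : Finset α) (f : α → ℝ≥0∞) (g : α → ℝ≥0∞)
    (h1 : ∀ x ∈ s, g x = f x) (h2 : ∀ x, x ∉ s → g x = 0) : ∑' x, g x = ∑ x ∈ s, f x := by
  rw [tsum_eq_sum (s := s) h2]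
  exact Finset.sum_congr rfl h1

theorem t_PW : S_PW := by
  classical
  intro N T H Z hZ
  rcases H.eq_empty_or_nonempty with rfl | hne
  · simp
  rw [if_pos hne]
  have hZ1 : ∀ n ∈ H, 1 ≤ Z n := by
    intro n hn
    rw [hZ n]
    refine le_trans ?_ (ENNReal.le_tsum n)
    rw [if_pos ⟨hn, fun i => ⟨by omega, by omega⟩⟩]
  by_cases hfin : H.Finite
  · set F := hfin.toFinset with hF
    have hmF : ∀ n, n ∈ F ↔ n ∈ H := fun n => by rw [hF, Set.Finite.mem_toFinset]
    have hFpos : 0 < F.card := by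
      obtain ⟨n, hn⟩ := hne
      exact Finset.card_pos.2 ⟨n, (hmF n).2 hn⟩
    have hF0 : (F.card : ℝ≥0∞) ≠ 0 := by
      simpa using hFpos.ne'
    have hZc : ∀ n, Z n = ((F.filter fun m => ∀ i, n i ≤ m i + T ∧ m i ≤ n i + T).card : ℝ≥0∞) := by
      intro n
      rw [hZ n, tsum_fin (F.filter fun m => ∀ i, n i ≤ m i + T ∧ m i ≤ n i + T) (fun _ => 1)]
      · simp
      · intro m hm
        rw [Finset.mem_filter, hmF] at hm
        rw [if_pos hm]
      · intro m hm
        rw [Finset.mem_filter, hmF] at hm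
        rw [if_neg hm]
    have hs1 : (∑' n : Fin N → ℕ, if n ∈ H then (Z n)⁻¹ else 0) = ∑ n ∈ F, (Z n)⁻¹ := by
      refine tsum_fin F _ _ ?_ ?_
      · intro n hn
        rw [if_pos ((hmF n).1 hn)]
      · intro n hn
        rw [if_neg (fun h => hn ((hmF n).2 h))]
    have hs2 : (∑' n : Fin N → ℕ, ∑' m : Fin N → ℕ,
        if n ∈ H ∧ m ∈ H ∧ far T n m then (1 : ℝ≥0∞) else 0) =
        ∑ n ∈ F, ((F.filter fun m => ¬ ∀ i, n i ≤ m i + T ∧ m i ≤ n i + T).card : ℝ≥0∞) := by
      refine tsum_fin F _ _ ?_ ?_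
      · intro n hn
        rw [tsum_fin (F.filter fun m => ¬ ∀ i, n i ≤ m i + T ∧ m i ≤ n i + T) (fun _ => 1)]
        · simp
        · intro m hm
          rw [Finset.mem_filter, hmF, ← far_iff] at hm
          rw [if_pos ⟨(hmF n).1 hn, hm⟩]
        · intro m hm
          rw [Finset.mem_filter, hmF, ← far_iff] at hm
          rw [if_neg (fun h => hm h.2)]
      · intro n hn
        have : ∀ m, (if n ∈ H ∧ m ∈ H ∧ far T n m then (1 : ℝ≥0∞) else 0) = 0 := fun m =>
          if_neg (fun h => hn ((hmF n).2 h.1))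
        simp only [this, tsum_zero]
    have hcard : ∀ n : Fin N → ℕ, (F.filter fun m => ∀ i, n i ≤ m i + T ∧ m i ≤ n i + T).card +
        (F.filter fun m => ¬ ∀ i, n i ≤ m i + T ∧ m i ≤ n i + T).card = F.card := fun n =>
      Finset.card_filter_add_card_filter_not _
    have hsum : ∑ _n ∈ F, (F.card : ℝ≥0∞)⁻¹ = 1 := by
      rw [Finset.sum_const, nsmul_eq_mul]
      exact ENNReal.mul_inv_cancel hF0 (ENNReal.natCast_ne_top _)
    rw [hs1, hs2]
    constructor
    · rw [← hsum]
      refine Finset.sum_le_sum fun n _ => ?_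
      rw [ENNReal.inv_le_inv, hZc n]
      have := hcard n
      exact_mod_cast (by omega)
    · rw [← hsum, ← Finset.sum_add_distrib]
      refine Finset.sum_le_sum fun n hn => ?_
      by_cases h0 : (F.filter fun m => ¬ ∀ i, n i ≤ m i + T ∧ m i ≤ n i + T).card = 0
      · have := hcard n
        rw [h0, add_zero] at this
        rw [hZc n, this]
        exact le_self_add
      · refine le_trans (ENNReal.inv_le_one.2 (hZ1 n ((hmF n).1 hn))) ?_
        refine le_trans ?_ le_add_self
        exact_mod_cast (by omega : 1 ≤ (F.filter fun m => ¬ ∀ i, n i ≤ m i + T ∧ m i ≤ n i + T).card)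
  · have hinf : H.Infinite := hfin
    constructor
    · have hK : ∀ n, Z n ≤ (((2 * T + 1) ^ N : ℕ) : ℝ≥0∞) := by
        intro n
        obtain ⟨F, hF, hc⟩ := window_fin T n
        rw [hZ n]
        calc (∑' m : Fin N → ℕ, if m ∈ H ∧ ∀ i, n i ≤ m i + T ∧ m i ≤ n i + T then (1 : ℝ≥0∞) else 0)
            ≤ ∑' m : Fin N → ℕ, if m ∈ F then (1 : ℝ≥0∞) else 0 := by
              refine ENNReal.tsum_le_tsum fun m => ?_
              by_cases hm : m ∈ H ∧ ∀ i, n i ≤ m i + T ∧ m i ≤ n i + T
              · rw [if_pos hm, if_pos ((hF m).2 hm.2)]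
              · rw [if_neg hm]
                exact zero_le
          _ = F.card := by
              rw [tsum_fin F (fun _ => 1)]
              · simp
              · intro x hx
                rw [if_pos hx]
              · intro x hx
                rw [if_neg hx]
          _ ≤ _ := by exact_mod_cast hc
      have h1 : (∑' n : Fin N → ℕ, if n ∈ H then (Z n)⁻¹ else 0) = ⊤ := by
        rw [eq_top_iff, ← tsum_ind_top H hinf ((((2 * T + 1) ^ N : ℕ) : ℝ≥0∞)⁻¹)
          (ENNReal.inv_ne_zero.2 (ENNReal.natCast_ne_top _))]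
        refine ENNReal.tsum_le_tsum fun n => ?_
        by_cases hn : n ∈ H
        · rw [Set.indicator_of_mem hn, if_pos hn]
          exact ENNReal.inv_le_inv.2 (hK n)
        · rw [Set.indicator_of_notMem hn]
          exact zero_le
      rw [h1]
      exact le_top
    · have h1 : (∑' n : Fin N → ℕ, ∑' m : Fin N → ℕ,
          if n ∈ H ∧ m ∈ H ∧ far T n m then (1 : ℝ≥0∞) else 0) = ⊤ := by
        obtain ⟨n, hn⟩ := hne
        obtain ⟨F, hF, -⟩ := window_fin T n
        rw [eq_top_iff, ← tsum_ind_top (H \ F) (hinf.sdiff F.finite_toSet) 1 one_ne_zero]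
        refine le_trans ?_ (ENNReal.le_tsum n)
        refine ENNReal.tsum_le_tsum fun m => ?_
        by_cases hm : m ∈ H \ (F : Set (Fin N → ℕ))
        · rw [Set.indicator_of_mem hm, if_pos]
          refine ⟨hn, hm.1, ?_⟩
          rw [far_iff, ← hF]
          exact hm.2
        · rw [Set.indicator_of_notMem hm]
          exact zero_le
      rw [h1]
      simp

end Pool.Agent.Q88.MR
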