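import Pool.Agent.Q88.MR.SM

/-!
# The Green function varies slowly
-/

open MeasureTheory ProbabilityTheory Filter
open scoped Topology ENNReal

namespace Pool.Agent.Q88.MR

theorem shift_tendsto {d : ℕ} (F : (Fin d → ℤ) → ℝ) (hF : Tendsto F cofinite (𝓝 0))
    (y : Fin d → ℤ) : Tendsto (fun z => F (z + y)) cofinite (𝓝 0) := by
  refine hF.comp ?_
  exact (Equiv.addRight y).injective.tendsto_cofinite

theorem t_RAT (h1 : S_GR) (h2 : S_LOW) (h3 : S_UP) (h4 : S_CK) : S_RAT := by
  intro d k hk hd y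
  have hd1 : 1 ≤ d := by omega
  obtain ⟨C, hC, hgr⟩ := h1 d k hk hd
  obtain ⟨c, hc, hlow⟩ := h2 d k hk hd
  obtain ⟨C', hC', hup⟩ := h3 d k hd
  set p := d - 2 * k with hp
  set g : (Fin d → ℤ) → ℝ := fun z => (GN d k z).toReal with hg
  have hsymm : ∀ x, g (-x) = g x := by
    intro x
    have h := (h4 d hd1).2.2.2
    simp only [hg, GN, h]
  have hgl : ∀ z, c / (1 + ‖z‖) ^ p ≤ g z := by
    intro z
    have hfin : GN d k z ≠ ⊤ := ne_top_of_le_ne_top ENNReal.ofReal_ne_top (hup z)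
    have := ENNReal.toReal_mono hfin (hlow z)
    have hz := norm_nonneg z
    rwa [ENNReal.toReal_ofReal (by positivity)] at this
  have hn : ∀ z : Fin d → ℤ, 0 < 1 + ‖z‖ := fun z => by have := norm_nonneg z; linarith
  -- the subgroup
  let Φ : (Fin d → ℤ) → Prop := fun y =>
    Tendsto (fun z => (g (z + y) - g z) * (1 + ‖z‖) ^ p) cofinite (𝓝 0)
  have hkey : ∀ (F : (Fin d → ℤ) → ℝ) (y : Fin d → ℤ),
      Tendsto (fun z => F z * (1 + ‖z‖) ^ p) cofinite (𝓝 0) →
      Tendsto (fun z => F (z + y) * (1 + ‖z‖) ^ p) cofinite (𝓝 0) := by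
    intro F y hF
    have h5 := (shift_tendsto _ hF y).norm
    rw [norm_zero] at h5
    have h6 := h5.const_mul ((1 + ‖y‖) ^ p)
    rw [mul_zero] at h6
    refine squeeze_zero_norm (fun z => ?_) h6
    rw [norm_mul, norm_mul, norm_pow, norm_pow, Real.norm_of_nonneg (hn z).le,
      Real.norm_of_nonneg (hn (z + y)).le]
    have h7 : 1 + ‖z‖ ≤ (1 + ‖y‖) * (1 + ‖z + y‖) := by
      have h8 : ‖z‖ ≤ ‖z + y‖ + ‖y‖ := by
        calc ‖z‖ = ‖(z + y) - y‖ := by congr 1; abel
          _ ≤ _ := norm_sub_le _ _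
      nlinarith [norm_nonneg (z + y), norm_nonneg y]
    calc ‖F (z + y)‖ * (1 + ‖z‖) ^ p ≤ ‖F (z + y)‖ * ((1 + ‖y‖) * (1 + ‖z + y‖)) ^ p := by
          gcongr
      _ = (1 + ‖y‖) ^ p * (‖F (z + y)‖ * (1 + ‖z + y‖) ^ p) := by
          rw [mul_pow]; ring
  have hΦ0 : Φ 0 := by
    simp only [Φ, add_zero, sub_self, zero_mul]
    exact tendsto_const_nhds
  have hΦadd : ∀ a b, Φ a → Φ b → Φ (a + b) := by
    intro a b ha hb
    have h5 := hkey (fun z => g (z + b) - g z) a hb
    have h6 := h5.add ha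
    rw [add_zero] at h6
    refine h6.congr fun z => ?_
    have e : z + (a + b) = z + a + b := by abel
    rw [e]
    ring
  have hΦneg : ∀ a, Φ a → Φ (-a) := by
    intro a ha
    have h5 := (hkey (fun z => g (z + a) - g z) (-a) ha).neg
    rw [neg_zero] at h5
    refine h5.congr fun z => ?_
    have e : z + -a + a = z := by abel
    simp only [e]
    ring
  have hΦe : ∀ i, Φ (Pi.single i 1) := by
    intro i
    have h5 : Tendsto (fun z : Fin d → ℤ => C / (1 + ‖z‖)) cofinite (𝓝 0) := by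
      rw [Metric.tendsto_nhds]
      intro ε hε
      filter_upwards [ev_norm (d := d) (C / ε)] with z hz
      rw [Real.dist_eq, sub_zero, abs_of_nonneg (by have := hn z; positivity),
        div_lt_iff₀ (hn z)]
      rw [div_lt_iff₀ hε] at hz
      nlinarith
    refine squeeze_zero_norm (fun z => ?_) h5
    rw [norm_mul, norm_pow, Real.norm_of_nonneg (hn z).le, Real.norm_eq_abs]
    calc |g (z + Pi.single i 1) - g z| * (1 + ‖z‖) ^ p
        ≤ C / (1 + ‖z‖) ^ (p + 1) * (1 + ‖z‖) ^ p := by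
          gcongr
          exact hgr z i
      _ = C / (1 + ‖z‖) := by
          have := (hn z).ne'
          rw [pow_succ]
          field_simp
  let G : AddSubgroup (Fin d → ℤ) :=
    { carrier := {a | Φ a}
      add_mem' := fun {a b} ha hb => hΦadd a b ha hb
      zero_mem' := hΦ0
      neg_mem' := fun {a} ha => hΦneg a ha }
  have hall : ∀ a, Φ a := by
    intro a
    have h5 : ∑ i, (a i) • (Pi.single i 1 : Fin d → ℤ) ∈ G :=
      G.sum_mem fun i _ => G.zsmul_mem (hΦe i) (a i)
    have h6 : ∑ i, (a i) • (Pi.single i 1 : Fin d → ℤ) = a := by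
      rw [← Finset.univ_sum_single a]
      refine Finset.sum_congr rfl fun i _ => ?_
      rw [Finset.univ_sum_single a, ← Pi.single_smul]
      simp
    rw [h6] at h5
    exact h5
  have h5 := hall (-y)
  have h6 : Tendsto (fun z => g (z + -y) / g z - 1) cofinite (𝓝 0) := by
    have h7 := (h5.norm).const_mul (1 / c)
    rw [norm_zero, mul_zero] at h7
    refine squeeze_zero_norm (fun z => ?_) h7
    have hgz : 0 < g z := lt_of_lt_of_le (by have := hn z; positivity) (hgl z)
    rw [div_sub_one hgz.ne', norm_div, norm_mul, Real.norm_of_nonneg hgz.le, norm_pow,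
      Real.norm_of_nonneg (hn z).le, div_le_iff₀ hgz]
    have h8 : c ≤ g z * (1 + ‖z‖) ^ p := by
      have := hgl z
      rwa [div_le_iff₀ (pow_pos (hn z) p)] at this
    calc ‖g (z + -y) - g z‖ = 1 / c * (‖g (z + -y) - g z‖ * c) := by field_simp
      _ ≤ 1 / c * (‖g (z + -y) - g z‖ * (g z * (1 + ‖z‖) ^ p)) := by gcongr
      _ = 1 / c * (‖g (z + -y) - g z‖ * (1 + ‖z‖) ^ p) * g z := by ring
  have h7 := h6.add_const 1
  rw [zero_add] at h7
  refine h7.congr fun z => ?_
  have e : g (z + -y) = (GN d k (y - z)).toReal := by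
    have h8 := hsymm (y - z)
    rw [show -(y - z) = z + -y by abel] at h8
    rw [h8]
  rw [e]
  simp [hg]

end Pool.Agent.Q88.MR
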