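import Pool.Agent.Q88.MR.Stm

/-!
# The far pairs are negligible
-/

open MeasureTheory ProbabilityTheory Filter
open scoped Topology ENNReal

namespace Pool.Agent.Q88.MR

theorem t_RT (h1 : S_UP) (h2 : S_LOW) (h3 : S_LS) (h4 : S_HT) : S_RT := by
  intro N d hN hd A ε hε
  obtain ⟨C, hC, hup⟩ := h1 d N hd
  obtain ⟨c, hc, hlow⟩ := h2 d N hN hd
  obtain ⟨⟨K, hK⟩, hT⟩ := h4 N d hd A
  set m := d - 2 * N with hm
  have hm1 : 1 ≤ m := by omega
  have hmd : m ≤ d := by omega
  set η : ℝ := c * ε / (2 * C) with hη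
  have hη0 : 0 < η := by positivity
  have hT2 : Tendsto (fun T : ℕ => 2 ^ m * ∑' y, HT N T A y) atTop (𝓝 0) := by
    have := ENNReal.Tendsto.const_mul (a := 2 ^ m) hT (Or.inr (by simp))
    simpa using this
  have hev := hT2.eventually (gt_mem_nhds (ENNReal.ofReal_pos.2 hη0))
  obtain ⟨T, hTT⟩ := hev.exists
  refine ⟨T, ?_⟩
  have hls := h3 d m hm1 hmd (HT N T A) ⟨K, fun y => by
    have := hK T y
    rwa [show 2 * d - 2 * N = d + m by omega] at this⟩ η hη0
  filter_upwards [hls] with z hz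
  have hb : ∀ y, GN d N (y - z) * HT N T A y ≤
      ENNReal.ofReal C * (ENNReal.ofReal (1 / (1 + ‖y - z‖) ^ m) * HT N T A y) := by
    intro y
    rw [← mul_assoc, ← ENNReal.ofReal_mul hC.le, mul_one_div]
    gcongr
    exact hup (y - z)
  calc ∑' y, GN d N (y - z) * HT N T A y
      ≤ ∑' y, ENNReal.ofReal C * (ENNReal.ofReal (1 / (1 + ‖y - z‖) ^ m) * HT N T A y) :=
        ENNReal.tsum_le_tsum hb
    _ = ENNReal.ofReal C * ∑' y, ENNReal.ofReal (1 / (1 + ‖y - z‖) ^ m) * HT N T A y :=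
        ENNReal.tsum_mul_left
    _ ≤ ENNReal.ofReal C * (ENNReal.ofReal (1 / (1 + ‖z‖) ^ m) *
        (ENNReal.ofReal η + ENNReal.ofReal η)) := by
        gcongr
        refine hz.trans ?_
        gcongr
    _ = ENNReal.ofReal ε * ENNReal.ofReal (c / (1 + ‖z‖) ^ m) := by
        rw [← ENNReal.ofReal_add hη0.le hη0.le, ← ENNReal.ofReal_mul (by positivity),
          ← ENNReal.ofReal_mul hC.le, ← ENNReal.ofReal_mul hε.le]
        congr 1
        rw [hη]
        field_simp
        ring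
    _ ≤ ENNReal.ofReal ε * GN d N z := by
        gcongr
        exact hlow z

end Pool.Agent.Q88.MR
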