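import Pool.Agent.Q88.MR.FS

/-!
# The hits at small times are negligible
-/

open MeasureTheory ProbabilityTheory Filter
open scoped Topology ENNReal

namespace Pool.Agent.Q88.MR

theorem ev_norm {d : ℕ} (K : ℝ) : ∀ᶠ z : Fin d → ℤ in cofinite, K < ‖z‖ := by
  rw [eventually_cofinite]
  refine (ball_fin (0 : Fin d → ℤ) K).subset ?_
  intro z hz
  rw [Set.mem_ofPred_eq] at hz ⊢
  rw [zero_sub, norm_neg]
  exact not_lt.1 hz

theorem split_coord {M : ℕ} (i : Fin (M + 1)) (f : (Fin (M + 1) → ℕ) → ℝ≥0∞) :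
    ∑' n, f n = ∑' (j : ℕ) (n' : Fin M → ℕ), f (i.insertNth j n') := by
  rw [← (Fin.insertNthEquiv (fun _ => ℕ) i).tsum_eq f, ENNReal.tsum_prod']
  rfl

theorem inner_GN (h3 : S_CK) {d : ℕ} (hd : 1 ≤ d) (M j : ℕ) (x : Fin d → ℤ) :
    ∑' n' : Fin M → ℕ, q d (j + ∑ i, n' i) x = ∑' w, q d j w * GN d M (x - w) := by
  have h := (h3 d hd).1
  calc ∑' n' : Fin M → ℕ, q d (j + ∑ i, n' i) x
      = ∑' n' : Fin M → ℕ, ∑' w, q d j w * q d (∑ i, n' i) (x - w) :=
        tsum_congr fun n' => (h j (∑ i, n' i) x).symm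
    _ = ∑' w, ∑' n' : Fin M → ℕ, q d j w * q d (∑ i, n' i) (x - w) := ENNReal.tsum_comm
    _ = ∑' w, q d j w * GN d M (x - w) := tsum_congr fun w => ENNReal.tsum_mul_left

theorem t_SM (h1 : S_UP) (h2 : S_LOW) (h3 : S_CK) : S_SM := by
  intro N d hN hNd A T ε hε
  obtain ⟨M, rfl⟩ : ∃ M, N = M + 1 := ⟨N - 1, by omega⟩
  have hd : 1 ≤ d := by omega
  obtain ⟨C, hC, hup⟩ := h1 d M (by omega)
  obtain ⟨c, hc, hlow⟩ := h2 d (M + 1) (by omega) hNd
  obtain ⟨-, hone, hrange, -⟩ := h3 d hd
  set p := d - 2 * (M + 1) with hp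
  have hp2 : d - 2 * M = p + 2 := by omega
  rw [hp2] at hup
  set R : ℝ := 1 + T + ∑ a ∈ A, ‖a‖ with hR
  have hRA : ∀ a ∈ A, 1 + ‖a‖ + T ≤ R := by
    intro a ha
    have : ‖a‖ ≤ ∑ a ∈ A, ‖a‖ := Finset.single_le_sum (fun a _ => norm_nonneg a) ha
    rw [hR]; linarith
  have hR0 : 0 < R := by
    have : 0 ≤ ∑ a ∈ A, ‖a‖ := Finset.sum_nonneg fun a _ => norm_nonneg a
    have : (0 : ℝ) ≤ T := Nat.cast_nonneg T
    rw [hR]; linarith
  have hin : ∀ z, ∀ a ∈ A, ∀ j, j < T → ∑' n' : Fin M → ℕ, q d (j + ∑ i, n' i) (a - z) ≤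
      ENNReal.ofReal (C * R ^ (p + 2) / (1 + ‖z‖) ^ (p + 2)) := by
    intro z a ha j hj
    rw [inner_GN h3 hd]
    calc ∑' w, q d j w * GN d M (a - z - w)
        ≤ ∑' w, q d j w * ENNReal.ofReal (C * R ^ (p + 2) / (1 + ‖z‖) ^ (p + 2)) := by
          refine ENNReal.tsum_le_tsum fun w => ?_
          by_cases hw : q d j w = 0
          · rw [hw, zero_mul, zero_mul]
          · gcongr
            refine (hup (a - z - w)).trans (ENNReal.ofReal_le_ofReal ?_)
            have hwj : ‖w‖ ≤ T := (hrange j w hw).trans (by exact_mod_cast hj.le)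
            have e1 : ‖z‖ ≤ ‖a‖ + ‖w‖ + ‖a - z - w‖ := by
              calc ‖z‖ = ‖a - w - (a - z - w)‖ := by congr 1; abel
                _ ≤ ‖a - w‖ + ‖a - z - w‖ := norm_sub_le _ _
                _ ≤ ‖a‖ + ‖w‖ + ‖a - z - w‖ := by
                    have := norm_sub_le a w
                    linarith
            have e2 : 1 + ‖z‖ ≤ R * (1 + ‖a - z - w‖) := by
              have h5 := hRA a ha
              have h6 := norm_nonneg (a - z - w)
              have h7 := norm_nonneg a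
              nlinarith [norm_nonneg w, (Nat.cast_nonneg T : (0 : ℝ) ≤ T)]
            have hz : 0 < 1 + ‖z‖ := by have := norm_nonneg z; linarith
            have hz2 : 0 < 1 + ‖a - z - w‖ := by have := norm_nonneg (a - z - w); linarith
            rw [div_le_div_iff₀ (by positivity) (by positivity), mul_assoc, ← mul_pow]
            gcongr
      _ = ENNReal.ofReal (C * R ^ (p + 2) / (1 + ‖z‖) ^ (p + 2)) := by
          rw [ENNReal.tsum_mul_right, hone, one_mul]
  have hSM : ∀ z, SM (M + 1) T A z ≤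
      ENNReal.ofReal ((M + 1) * T * A.card * (C * R ^ (p + 2) / (1 + ‖z‖) ^ (p + 2))) := by
    intro z
    have hz : 0 < 1 + ‖z‖ := by have := norm_nonneg z; linarith
    calc SM (M + 1) T A z
        ≤ ∑' n : Fin (M + 1) → ℕ, ∑ i : Fin (M + 1), if n i < T then
            ∑ a ∈ A, q d (∑ i, n i) (a - z) else 0 := by
          refine ENNReal.tsum_le_tsum fun n => ?_
          by_cases hn : ∃ i, n i < T
          · rw [if_pos hn]
            obtain ⟨i, hi⟩ := hn
            refine le_trans ?_ (Finset.single_le_sum (fun _ _ => zero_le) (Finset.mem_univ i))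
            rw [if_pos hi]
          · rw [if_neg hn]
            exact zero_le
      _ = ∑ i : Fin (M + 1), ∑' n : Fin (M + 1) → ℕ, if n i < T then
            ∑ a ∈ A, q d (∑ i, n i) (a - z) else 0 :=
          Summable.tsum_finsetSum fun _ _ => ENNReal.summable
      _ = ∑ i : Fin (M + 1), ∑' (j : ℕ) (n' : Fin M → ℕ), if j < T then
            ∑ a ∈ A, q d (j + ∑ i, n' i) (a - z) else 0 := by
          refine Finset.sum_congr rfl fun i _ => ?_
          rw [split_coord i]
          refine tsum_congr fun j => tsum_congr fun n' => ?_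
          rw [Fin.insertNth_apply_same, Fin.sum_univ_succAbove _ i]
          simp only [Fin.insertNth_apply_same, Fin.insertNth_apply_succAbove]
      _ = ∑ i : Fin (M + 1), ∑ j ∈ Finset.range T, ∑' (n' : Fin M → ℕ),
            ∑ a ∈ A, q d (j + ∑ i, n' i) (a - z) := by
          refine Finset.sum_congr rfl fun i _ => ?_
          rw [tsum_eq_sum (s := Finset.range T)]
          · refine Finset.sum_congr rfl fun j hj => ?_
            simp only [if_pos (Finset.mem_range.1 hj)]
          · intro j hj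
            rw [Finset.mem_range] at hj
            simp only [if_neg hj, tsum_zero]
      _ = ∑ i : Fin (M + 1), ∑ j ∈ Finset.range T, ∑ a ∈ A, ∑' (n' : Fin M → ℕ),
            q d (j + ∑ i, n' i) (a - z) := by
          refine Finset.sum_congr rfl fun i _ => Finset.sum_congr rfl fun j _ => ?_
          exact Summable.tsum_finsetSum fun _ _ => ENNReal.summable
      _ ≤ ∑ i : Fin (M + 1), ∑ j ∈ Finset.range T, ∑ a ∈ A,
            ENNReal.ofReal (C * R ^ (p + 2) / (1 + ‖z‖) ^ (p + 2)) := by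
          refine Finset.sum_le_sum fun i _ => Finset.sum_le_sum fun j hj =>
            Finset.sum_le_sum fun a ha => hin z a ha j (Finset.mem_range.1 hj)
      _ = ENNReal.ofReal ((M + 1) * T * A.card * (C * R ^ (p + 2) / (1 + ‖z‖) ^ (p + 2))) := by
          simp only [Finset.sum_const, Finset.card_univ, Fintype.card_fin, Finset.card_range,
            nsmul_eq_mul]
          rw [ENNReal.ofReal_mul (by positivity), ENNReal.ofReal_mul (by positivity),
            ENNReal.ofReal_mul (by positivity), ENNReal.ofReal_natCast, ENNReal.ofReal_natCast]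
          rw [show ((M : ℝ) + 1) = ((M + 1 : ℕ) : ℝ) by push_cast; ring, ENNReal.ofReal_natCast]
          ring
  have hev := ev_norm (d := d) ((M + 1) * T * A.card * (C * R ^ (p + 2)) / (ε * c))
  filter_upwards [hev] with z hz
  refine (hSM z).trans (le_trans ?_ (mul_le_mul_right (hlow z) _))
  rw [← ENNReal.ofReal_mul hε.le]
  refine ENNReal.ofReal_le_ofReal ?_
  have hz0 := norm_nonneg z
  have hz1 : 0 < 1 + ‖z‖ := by linarith
  rw [div_lt_iff₀ (by positivity)] at hz
  have e3 : ε * (c / (1 + ‖z‖) ^ p) = ε * c * (1 + ‖z‖) ^ 2 / (1 + ‖z‖) ^ (p + 2) := by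
    rw [pow_add]
    field_simp
  rw [e3, ← mul_div_assoc]
  refine div_le_div_of_nonneg_right ?_ (by positivity)
  calc (M + 1) * T * A.card * (C * R ^ (p + 2)) ≤ ‖z‖ * (ε * c) := hz.le
    _ = ε * c * ‖z‖ := by ring
    _ ≤ ε * c * (1 + ‖z‖) ^ 2 := by
        gcongr
        nlinarith

end Pool.Agent.Q88.MR
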