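import Pool.Agent.Q88.MR.Hit

/-!
# The expected weight of a hit
-/

open MeasureTheory ProbabilityTheory Filter
open scoped Topology ENNReal

universe u

namespace Pool.Agent.Q88.MR

theorem hit_shift {N d : ℕ} (A : Finset (Fin d → ℤ)) (z : Fin d → ℤ)
    (π : Fin N → ℕ → Fin d → ℤ) (k m : Fin N → ℕ) :
    hit A (z + ∑ i, π i (k i)) (fun i n => π i (k i + n) - π i (k i)) m =
      hit A z π (fun i => k i + m i) := by
  unfold hit
  congr 2
  rw [Finset.sum_sub_distrib]
  abel

theorem Zc_shift {N d : ℕ} (T : ℕ) (A : Finset (Fin d → ℤ)) (z : Fin d → ℤ)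
    (π : Fin N → ℕ → Fin d → ℤ) (k : Fin N → ℕ) :
    Zc T A (z + ∑ i, π i (k i)) (fun i n => π i (k i + n) - π i (k i)) (fun _ => T) =
      Zc T A z π (fun i => k i + T) := by
  unfold Zc
  have hinj : Function.Injective (fun (m : Fin N → ℕ) (i : Fin N) => k i + m i) := by
    intro a b e
    funext i
    have := congrFun e i
    simpa using this
  have hsupp : Function.support (fun m : Fin N → ℕ =>
      if ∀ i, k i + T ≤ m i + T ∧ m i ≤ k i + T + T then hit A z π m else 0) ⊆
      Set.range (fun (m : Fin N → ℕ) (i : Fin N) => k i + m i) := by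
    intro m hm
    rw [Function.mem_support] at hm
    have h : ∀ i, k i + T ≤ m i + T ∧ m i ≤ k i + T + T := by
      by_contra h
      exact hm (if_neg h)
    refine ⟨fun i => m i - k i, ?_⟩
    funext i
    have := h i
    change k i + (m i - k i) = m i
    omega
  have e := hinj.tsum_eq hsupp
  refine Eq.trans ?_ e
  refine tsum_congr fun m => ?_
  rw [hit_shift]
  refine if_congr ?_ rfl rfl
  refine forall_congr' fun i => ?_
  change (T ≤ m i + T ∧ m i ≤ T + T) ↔ (k i + T ≤ k i + m i + T ∧ k i + m i ≤ k i + T + T)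
  omega

theorem t_WIN (h : S_MK.{u}) : S_WIN.{u} := by
  intro N d hd Ω _ P _ S hS T A z n hn
  have hmk := h N d hd Ω P S hS (fun i => n i - T)
    (fun y π => hit A (z + y) π (fun _ => T) * (Zc T A (z + y) π (fun _ => T))⁻¹) (fun y => by
      have hf : ∀ (i : Fin N) (j : ℕ), Measurable (fun π : Fin N → ℕ → Fin d → ℤ => π i j) :=
        fun i j => (measurable_pi_apply j).comp (measurable_pi_apply i)
      exact (meas_hit A (z + y) (fun i j (π : Fin N → ℕ → Fin d → ℤ) => π i j) hf
        (fun _ => T)).mul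
        (meas_Zc T A (z + y) (fun i j (π : Fin N → ℕ → Fin d → ℤ) => π i j) hf
          (fun _ => T)).inv)
  have hnT : (fun i => n i - T + T) = n := by
    funext i
    have := hn i
    omega
  have e1 : ∀ ω, hit A z (fun i j => S i j ω) n * (Zc T A z (fun i j => S i j ω) n)⁻¹ =
      hit A (z + ∑ i, S i (n i - T) ω) (fun i j => S i (n i - T + j) ω - S i (n i - T) ω)
        (fun _ => T) * (Zc T A (z + ∑ i, S i (n i - T) ω)
          (fun i j => S i (n i - T + j) ω - S i (n i - T) ω) (fun _ => T))⁻¹ := by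
    intro ω
    have h1 := hit_shift A z (fun i j => S i j ω) (fun i => n i - T) (fun _ => T)
    have h2 := Zc_shift T A z (fun i j => S i j ω) (fun i => n i - T)
    simp only [hnT] at h1 h2
    rw [h1, h2]
  rw [lintegral_congr e1, hmk, ← (Equiv.addLeft z).tsum_eq
    (fun y => q d (∑ i, (n i - T)) (y - z) * FT P S T A y)]
  refine tsum_congr fun y => ?_
  simp only [Equiv.coe_addLeft, add_sub_cancel_left]
  rfl

end Pool.Agent.Q88.MR
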