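import Pool.Agent.Q88.MR.AT
import Pool.Agent.Q88.MR.CV
import Pool.Agent.Q88.MR.HB
import Pool.Agent.Q88.MR.IND
import Pool.Agent.Q88.MR.FS
import Pool.Agent.Q88.MR.RT
import Pool.Agent.Q88.MR.FIN
import Pool.Agent.Q88.MR.PW
import Pool.Agent.Q88.MR.MK
import Pool.Agent.Q88.MR.WIN
import Pool.Agent.Q88.MR.SM
import Pool.Agent.Q88.MR.RAT
import Pool.Agent.Q88.MR.CK
import Pool.Agent.Q63.MR.HLU
import Pool.Agent.Q79.MR.PAIR
import Pool.Agent.Q79.MR.UL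
import Pool.Agent.Q79.MR.POI
import Pool.Agent.Q79.MR.GI
import Pool.Agent.Q79.MR.Lat
import Pool.Agent.Q79.MR.HT

/-!
# Minkowski sums of the ranges of random walks: assembly
-/

universe u

namespace Pool.Agent.Q88.MR

theorem a_LAW : S_LAW.{u} := t_LAW

theorem a_CV : S_CV := t_CV t_CK

theorem a_POI : S_POI := Pool.Agent.Q79.MR.t_POI

theorem a_HL : S_HL := Pool.Agent.Q63.MR.t_HL t_HB a_POI

theorem a_GI : S_GI := Pool.Agent.Q79.MR.t_GI a_POI a_HL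

theorem a_LS : S_LS := Pool.Agent.Q79.MR.t_LS

theorem a_UP : S_UP := Pool.Agent.Q63.MR.t_UP a_GI t_HB a_HL

theorem a_LOW : S_LOW := Pool.Agent.Q63.MR.t_LOW a_GI a_HL

theorem a_GR : S_GR := Pool.Agent.Q63.MR.t_GR a_GI t_HB a_HL a_UP

theorem a_HT : S_HT := Pool.Agent.Q79.MR.t_HT a_UP

theorem a_UL : S_UL.{u} :=
  Pool.Agent.Q79.MR.t_UL t_PW (t_WIN (t_MK t_LAW)) (Pool.Agent.Q79.MR.t_PAIR (t_MK t_LAW) t_IND t_LAW)
    t_LAW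

theorem a_FIN : S_FIN.{u} :=
  t_FIN a_UL (t_FS t_LAW t_CK) (t_RT a_UP a_LOW a_LS a_HT) (t_SM a_UP a_LOW t_CK)
    (t_AT (t_RAT a_GR a_LOW a_UP t_CK) a_UP a_LOW) a_UP a_LOW

end Pool.Agent.Q88.MR
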