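import Pool.Agent.Q88.MR.Stm

/-!
# Minkowski sums of the ranges of random walks: reduction of the final statement
-/

open MeasureTheory ProbabilityTheory Filter
open scoped Topology ENNReal

universe u

namespace Pool.Agent.Q88.MR

theorem green_eq (hl : S_LAW.{u}) {N d : ℕ} (hd : 1 ≤ d) {Ω : Type u} [MeasurableSpace Ω]
    (P : Measure Ω) [IsProbabilityMeasure P] (S : Fin N → ℕ → Ω → Fin d → ℤ) (hS : Walks P S)
    (i : Fin N) (n : ℕ) (x : Fin d → ℤ) : P {ω | S i n ω = x} = q d n x := by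
  have h := hl N d hd Ω P S hS (Function.update 0 i n) x
  have e1 : ∀ ω, ∑ j, S j ((Function.update (0 : Fin N → ℕ) i n) j) ω = S i n ω := by
    intro ω
    rw [Finset.sum_eq_single i]
    · simp
    · intro j _ hj
      simp [Function.update_of_ne hj, hS.start]
    · intro hi
      exact absurd (Finset.mem_univ i) hi
  have e2 : ∑ j, (Function.update (0 : Fin N → ℕ) i n) j = n := by
    rw [Finset.sum_eq_single i]
    · simp
    · intro j _ hj
      simp [Function.update_of_ne hj]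
    · intro hi
      exact absurd (Finset.mem_univ i) hi
  rw [e2] at h
  simpa only [e1] using h

theorem final (hl : S_LAW.{u}) (hcv : S_CV) (hup : S_UP) (hlow : S_LOW) (hfin : S_FIN.{u})
    (N d : ℕ) (hN : 1 ≤ N) (hNd : 2 * N < d) (A : Finset (Fin d → ℤ)) (hA : A.Nonempty)
    (Ω : Type u) [MeasurableSpace Ω] (P : Measure Ω) [IsProbabilityMeasure P]
    (S : Fin N → ℕ → Ω → Fin d → ℤ) (hS : Walks P S) :
    ∃ L : ℝ, ∀ i : Fin N, (∀ z, 0 < cv (fun x => ∑' n, P {ω | S i n ω = x}) N z ∧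
        cv (fun x => ∑' n, P {ω | S i n ω = x}) N z < ⊤) ∧
      Tendsto (fun z : Fin d → ℤ => (P {ω | ∃ n : Fin N → ℕ, z + ∑ i, S i (n i) ω ∈ A}).toReal /
        (cv (fun x => ∑' n, P {ω | S i n ω = x}) N z).toReal) cofinite (𝓝 L) := by
  have hd : 1 ≤ d := by omega
  obtain ⟨L, hL⟩ := hfin N d hN hNd A hA Ω P S hS
  refine ⟨L, fun i => ?_⟩
  have e : ∀ z, cv (fun x => ∑' n, P {ω | S i n ω = x}) N z = GN d N z := by
    intro z
    rw [← hcv d N hd z]
    congr 1
    funext x
    exact tsum_congr fun n => green_eq hl hd P S hS i n x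
  simp only [e]
  refine ⟨fun z => ⟨?_, ?_⟩, hL⟩
  · obtain ⟨c, hc, h⟩ := hlow d N hN hNd
    refine lt_of_lt_of_le ?_ (h z)
    rw [ENNReal.ofReal_pos]
    have := norm_nonneg z
    positivity
  · obtain ⟨C, hC, h⟩ := hup d N hNd
    exact lt_of_le_of_lt (h z) ENNReal.ofReal_lt_top

end Pool.Agent.Q88.MR
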