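import Pool.Agent.Q88.MR.Stm

/-!
# The hits
-/

open MeasureTheory ProbabilityTheory Filter
open scoped Topology ENNReal

universe u

namespace Pool.Agent.Q88.MR

theorem Zc_ge {N d : ℕ} (T : ℕ) (A : Finset (Fin d → ℤ)) (y : Fin d → ℤ)
    (π : Fin N → ℕ → Fin d → ℤ) (n : Fin N → ℕ) : hit A y π n ≤ Zc T A y π n := by
  have := ENNReal.le_tsum (f := fun m : Fin N → ℕ =>
    if ∀ i, n i ≤ m i + T ∧ m i ≤ n i + T then hit A y π m else 0) n
  simpa [Zc] using this

theorem hit_cases {N d : ℕ} (A : Finset (Fin d → ℤ)) (y : Fin d → ℤ)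
    (π : Fin N → ℕ → Fin d → ℤ) (n : Fin N → ℕ) : hit A y π n = 0 ∨ hit A y π n = 1 := by
  unfold hit
  split_ifs
  · right; rfl
  · left; rfl

theorem hit_mul_inv_le {N d : ℕ} (T : ℕ) (A : Finset (Fin d → ℤ)) (y : Fin d → ℤ)
    (π : Fin N → ℕ → Fin d → ℤ) (n : Fin N → ℕ) :
    hit A y π n * (Zc T A y π n)⁻¹ ≤ hit A y π n := by
  have h1 := Zc_ge T A y π n
  rcases hit_cases A y π n with h | h
  · simp [h]
  · rw [h] at h1 ⊢
    rw [one_mul]
    exact ENNReal.inv_le_one.2 h1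

theorem meas_hit {N d : ℕ} {E : Type*} [MeasurableSpace E] (A : Finset (Fin d → ℤ))
    (y : Fin d → ℤ) (f : Fin N → ℕ → E → Fin d → ℤ) (hf : ∀ i j, Measurable (f i j))
    (n : Fin N → ℕ) : Measurable (fun e => hit A y (fun i j => f i j e) n) := by
  unfold hit
  refine Measurable.ite ?_ measurable_const measurable_const
  have hm : Measurable (fun e => y + ∑ i, f i (n i) e) :=
    (Finset.measurable_sum _ fun i _ => hf i (n i)).const_add y
  exact hm (MeasurableSet.of_discrete (s := (A : Set (Fin d → ℤ))))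

theorem meas_Zc {N d : ℕ} {E : Type*} [MeasurableSpace E] (T : ℕ) (A : Finset (Fin d → ℤ))
    (y : Fin d → ℤ) (f : Fin N → ℕ → E → Fin d → ℤ) (hf : ∀ i j, Measurable (f i j))
    (n : Fin N → ℕ) : Measurable (fun e => Zc T A y (fun i j => f i j e) n) := by
  unfold Zc
  refine Measurable.tsum fun m => ?_
  split_ifs
  · exact meas_hit A y f hf m
  · exact measurable_const

theorem prob_hit (h1 : S_LAW.{u}) {N d : ℕ} (hd : 1 ≤ d) {Ω : Type u} [MeasurableSpace Ω]
    (P : Measure Ω) [IsProbabilityMeasure P] (S : Fin N → ℕ → Ω → Fin d → ℤ) (h : Walks P S)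
    (A : Finset (Fin d → ℤ)) (y : Fin d → ℤ) (n : Fin N → ℕ) :
    P {ω | y + ∑ i, S i (n i) ω ∈ A} = ∑ a ∈ A, q d (∑ i, n i) (a - y) := by
  have e : {ω | y + ∑ i, S i (n i) ω ∈ A} = ⋃ a ∈ A, {ω | ∑ i, S i (n i) ω = a - y} := by
    ext ω
    simp only [Set.mem_ofPred_eq, Set.mem_iUnion]
    constructor
    · intro h
      exact ⟨_, h, by abel⟩
    · rintro ⟨a, ha, e⟩
      rw [e]
      simpa using ha
  rw [e, measure_biUnion_finset]
  · exact Finset.sum_congr rfl fun a _ => h1 N d hd Ω P S h n (a - y)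
  · intro a _ b _ hab
    rw [Function.onFun, Set.disjoint_left]
    intro ω h1 h2
    rw [Set.mem_ofPred_eq] at h1 h2
    exact hab (sub_left_injective (h1.symm.trans h2))
  · intro a _
    exact measurableSet_eq_fun (Finset.measurable_sum _ fun i _ => h.meas i (n i))
      measurable_const

theorem lintegral_hit (h1 : S_LAW.{u}) {N d : ℕ} (hd : 1 ≤ d) {Ω : Type u} [MeasurableSpace Ω]
    (P : Measure Ω) [IsProbabilityMeasure P] (S : Fin N → ℕ → Ω → Fin d → ℤ) (h : Walks P S)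
    (A : Finset (Fin d → ℤ)) (y : Fin d → ℤ) (n : Fin N → ℕ) :
    ∫⁻ ω, hit A y (fun i j => S i j ω) n ∂P = ∑ a ∈ A, q d (∑ i, n i) (a - y) := by
  rw [← prob_hit h1 hd P S h A y n]
  have hm : MeasurableSet {ω | y + ∑ i, S i (n i) ω ∈ A} := by
    have hm : Measurable (fun e => y + ∑ i, S i (n i) e) :=
      (Finset.measurable_sum _ fun i _ => h.meas i (n i)).const_add y
    exact hm (MeasurableSet.of_discrete (s := (A : Set (Fin d → ℤ))))
  rw [← lintegral_indicator_one hm]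
  refine lintegral_congr fun ω => ?_
  by_cases hω : y + ∑ i, S i (n i) ω ∈ A
  · rw [Set.indicator_of_mem (by exact hω)]
    simp [hit, hω]
  · rw [Set.indicator_of_notMem (by exact hω)]
    simp [hit, hω]

end Pool.Agent.Q88.MR
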