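import Pool.Agent.Q88.MR.Stm

/-!
# The law of the sum of the walks
-/

open MeasureTheory ProbabilityTheory Filter
open scoped Topology ENNReal

universe u

namespace Pool.Agent.Q88.MR

/-- The increments. -/
def Dn {N d : ℕ} {Ω : Type u} (S : Fin N → ℕ → Ω → Fin d → ℤ) (p : Fin N × ℕ) (ω : Ω) :
    Fin d → ℤ := S p.1 (p.2 + 1) ω - S p.1 p.2 ω

theorem S_eq {N d : ℕ} {Ω : Type u} [MeasurableSpace Ω] {P : Measure Ω}
    {S : Fin N → ℕ → Ω → Fin d → ℤ} (h : Walks P S) (i : Fin N) (n : ℕ) (ω : Ω) :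
    S i n ω = ∑ j ∈ Finset.range n, Dn S (i, j) ω := by
  have := Finset.sum_range_sub (fun j => S i j ω) n
  simp only [h.start, sub_zero] at this
  exact this.symm

theorem meas_Dn {N d : ℕ} {Ω : Type u} [MeasurableSpace Ω] {P : Measure Ω}
    {S : Fin N → ℕ → Ω → Fin d → ℤ} (h : Walks P S) (p : Fin N × ℕ) : Measurable (Dn S p) :=
  (h.meas _ _).sub (h.meas _ _)

theorem vec_inj {d : ℕ} : Function.Injective (vec : Fin d × Bool → Fin d → ℤ) := by
  rintro ⟨i, b⟩ ⟨j, c⟩ h
  have h1 := congrFun h i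
  have h2 := congrFun h j
  by_cases hij : i = j
  · subst hij
    cases b <;> cases c <;> simp [vec] at h1 ⊢
  · exfalso
    cases b <;> cases c <;> simp [vec, hij] at h1

theorem card_inv (d : ℕ) (hd : 1 ≤ d) : ∑ _s : Fin d × Bool, (2 * d : ℝ≥0∞)⁻¹ = 1 := by
  have hd0 : (2 * d : ℝ≥0∞) ≠ 0 := by
    have : (d : ℝ≥0∞) ≠ 0 := by
      simp only [ne_eq, Nat.cast_eq_zero]; omega
    simp [this]
  have hdt : (2 * d : ℝ≥0∞) ≠ ⊤ := ENNReal.mul_ne_top (by simp) (ENNReal.natCast_ne_top d)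
  rw [Finset.sum_const, nsmul_eq_mul]
  have : ((Finset.univ : Finset (Fin d × Bool)).card : ℝ≥0∞) = 2 * d := by
    simp [mul_comm]
  rw [this]
  exact ENNReal.mul_inv_cancel hd0 hdt

theorem Dn_ae {N d : ℕ} (hd : 1 ≤ d) {Ω : Type u} [MeasurableSpace Ω] {P : Measure Ω}
    [IsProbabilityMeasure P] {S : Fin N → ℕ → Ω → Fin d → ℤ} (h : Walks P S) (p : Fin N × ℕ) :
    ∀ᵐ ω ∂P, ∃ s, Dn S p ω = vec s := by
  have h1 : P (⋃ s, {ω | Dn S p ω = vec s}) = 1 := by
    rw [measure_iUnion, tsum_fintype]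
    · rw [← card_inv d hd]
      exact Finset.sum_congr rfl fun s _ => h.law p.1 p.2 s
    · intro s t hst
      rw [Function.onFun, Set.disjoint_left]
      intro ω h1 h2
      exact hst (vec_inj (h1.symm.trans h2))
    · intro s
      exact measurableSet_eq_fun (meas_Dn h p) measurable_const
  have h2 : MeasurableSet (⋃ s, {ω | Dn S p ω = vec s}) :=
    MeasurableSet.iUnion fun s => measurableSet_eq_fun (meas_Dn h p) measurable_const
  rw [← prob_compl_eq_zero_iff h2] at h1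
  rw [ae_iff]
  convert h1 using 2
  ext ω
  simp

theorem sum_law {N d : ℕ} (hd : 1 ≤ d) {Ω : Type u} [MeasurableSpace Ω] {P : Measure Ω}
    [IsProbabilityMeasure P] {S : Fin N → ℕ → Ω → Fin d → ℤ} (h : Walks P S)
    (J : Finset (Fin N × ℕ)) : ∀ y, P {ω | ∑ p ∈ J, Dn S p ω = y} = q d J.card y := by
  classical
  induction J using Finset.induction_on with
  | empty =>
    intro y
    by_cases hy : y = 0
    · simp [hy, q]
    · have : ¬ (0 = y) := fun e => hy e.symm
      simp [hy, q, this]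
  | insert p J hp ih =>
    intro y
    rw [Finset.card_insert_of_notMem hp]
    have hind : IndepFun (∑ j ∈ J, Dn S j) (Dn S p) P :=
      iIndepFun.indepFun_finsetSum_of_notMem (f := Dn S) h.indep
        (fun p => meas_Dn h p) hp
    have hX : ∀ ω, (∑ j ∈ J, Dn S j) ω = ∑ j ∈ J, Dn S j ω := fun ω => by
      simp
    have h1 : P {ω | ∑ p ∈ insert p J, Dn S p ω = y} =
        P (⋃ s, {ω | (∑ j ∈ J, Dn S j) ω = y - vec s ∧ Dn S p ω = vec s}) := by
      apply measure_congr
      filter_upwards [Dn_ae hd h p] with ω hω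
      apply propext
      change (∑ p ∈ insert p J, Dn S p ω = y) ↔ ω ∈ ⋃ s, {ω | (∑ j ∈ J, Dn S j) ω = y - vec s ∧ Dn S p ω = vec s}
      simp only [Set.mem_iUnion, Set.mem_ofPred_eq, hX, Finset.sum_insert hp]
      constructor
      · intro e
        obtain ⟨s, hs⟩ := hω
        refine ⟨s, ?_, hs⟩
        rw [← e, hs]
        abel
      · rintro ⟨s, h1, h2⟩
        rw [h1, h2]
        abel
    have hmX : Measurable (∑ j ∈ J, Dn S j) := by
      have e : (∑ j ∈ J, Dn S j) = fun ω => ∑ j ∈ J, Dn S j ω := funext hX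
      rw [e]
      exact Finset.measurable_sum _ fun j _ => meas_Dn h j
    rw [h1, measure_iUnion, tsum_fintype, q, Finset.mul_sum]
    · refine Finset.sum_congr rfl fun s _ => ?_
      have h2 := hind.measure_inter_preimage_eq_mul {y - vec s} {vec s} (measurableSet_singleton _)
        (measurableSet_singleton _)
      have h3 : P {ω | (∑ j ∈ J, Dn S j) ω = y - vec s ∧ Dn S p ω = vec s} =
          P ((∑ j ∈ J, Dn S j) ⁻¹' {y - vec s} ∩ Dn S p ⁻¹' {vec s}) := rfl
      rw [h3, h2]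
      have h4 : P ((∑ j ∈ J, Dn S j) ⁻¹' {y - vec s}) = q d J.card (y - vec s) := by
        rw [← ih (y - vec s)]
        congr 1
        ext ω
        simp
      have h5 : P (Dn S p ⁻¹' {vec s}) = (2 * d : ℝ≥0∞)⁻¹ := h.law p.1 p.2 s
      rw [h4, h5, mul_comm]
    · intro s t hst
      rw [Function.onFun, Set.disjoint_left]
      intro ω h1 h2
      exact hst (vec_inj (h1.2.symm.trans h2.2))
    · intro s
      exact (measurableSet_eq_fun hmX measurable_const).inter
        (measurableSet_eq_fun (meas_Dn h p) measurable_const)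

/-- The index set of the increments up to the times `k`. -/
def Jk {N : ℕ} (k : Fin N → ℕ) : Finset (Fin N × ℕ) :=
  (Finset.univ.sigma fun i => Finset.range (k i)).map
    (Equiv.sigmaEquivProd (Fin N) ℕ).toEmbedding

theorem mem_Jk {N : ℕ} (k : Fin N → ℕ) (p : Fin N × ℕ) : p ∈ Jk k ↔ p.2 < k p.1 := by
  unfold Jk
  simp only [Finset.mem_map, Finset.mem_sigma, Finset.mem_univ, Finset.mem_range, true_and,
    Sigma.exists, Equiv.coe_toEmbedding, Equiv.sigmaEquivProd_apply]
  constructor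
  · rintro ⟨i, j, h, rfl⟩
    exact h
  · intro h
    exact ⟨p.1, p.2, h, rfl⟩

theorem card_Jk {N : ℕ} (k : Fin N → ℕ) : (Jk k).card = ∑ i, k i := by
  simp [Jk]

theorem sum_S {N d : ℕ} {Ω : Type u} [MeasurableSpace Ω] {P : Measure Ω}
    {S : Fin N → ℕ → Ω → Fin d → ℤ} (h : Walks P S) (k : Fin N → ℕ) (ω : Ω) :
    ∑ i, S i (k i) ω = ∑ p ∈ Jk k, Dn S p ω := by
  rw [Jk, Finset.sum_map, Finset.sum_sigma]
  exact Finset.sum_congr rfl fun i _ => S_eq h i (k i) ω

theorem t_LAW : S_LAW.{u} := by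
  intro N d hd Ω _ P _ S h k y
  rw [← card_Jk k, ← sum_law hd h (Jk k) y]
  congr 1
  ext ω
  simp only [Set.mem_ofPred_eq, sum_S h]

end Pool.Agent.Q88.MR
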