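import Mathlib

/-!
# Minkowski sums of the ranges of random walks: statements

`A` is a finite set of sites of `ℤ^d`, the norm of `Fin d → ℤ` is the sup norm.
-/

open MeasureTheory ProbabilityTheory Filter
open scoped Topology ENNReal

universe u

namespace Pool.Agent.Q88.MR

noncomputable section

/-- The steps: plus or minus the unit vectors. -/
def vec {d : ℕ} (s : Fin d × Bool) : Fin d → ℤ := if s.2 then Pi.single s.1 1 else -Pi.single s.1 1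

/-- The `n`-step transition probabilities of simple random walk on `ℤ^d`. -/
def q (d : ℕ) : ℕ → (Fin d → ℤ) → ℝ≥0∞
  | 0, x => if x = 0 then 1 else 0
  | n + 1, x => (2 * d : ℝ≥0∞)⁻¹ * ∑ s : Fin d × Bool, q d n (x - vec s)

/-- The Green function of the sum of `k` independent walks, as a sum over the `k` times. -/
def GN (d k : ℕ) (x : Fin d → ℤ) : ℝ≥0∞ := ∑' n : Fin k → ℕ, q d (∑ i, n i) x

/-- The `k`-fold convolution of a function on `ℤ^d`. -/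
def cv {d : ℕ} (g : (Fin d → ℤ) → ℝ≥0∞) : ℕ → (Fin d → ℤ) → ℝ≥0∞
  | 0, x => if x = 0 then 1 else 0
  | k + 1, x => ∑' y, g y * cv g k (x - y)

/-- `S` is a family of `N` independent simple random walks on `ℤ^d`, started at the origin. -/
structure Walks {N d : ℕ} {Ω : Type u} [MeasurableSpace Ω] (P : Measure Ω)
    (S : Fin N → ℕ → Ω → Fin d → ℤ) : Prop where
  start : ∀ i ω, S i 0 ω = 0
  meas : ∀ i n, Measurable (S i n)
  law : ∀ i n (s : Fin d × Bool), P {ω | S i (n + 1) ω - S i n ω = vec s} = (2 * d : ℝ≥0∞)⁻¹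
  indep : iIndepFun (fun (p : Fin N × ℕ) ω => S p.1 (p.2 + 1) ω - S p.1 p.2 ω) P

/-- The indicator of the event that the multi-walk with paths `π` started at `y` is in `A` at the
times `n`. -/
def hit {N d : ℕ} (A : Finset (Fin d → ℤ)) (y : Fin d → ℤ) (π : Fin N → ℕ → Fin d → ℤ)
    (n : Fin N → ℕ) : ℝ≥0∞ := if y + ∑ i, π i (n i) ∈ A then 1 else 0

/-- The number of hits in the window of radius `T` around `n`. -/
def Zc {N d : ℕ} (T : ℕ) (A : Finset (Fin d → ℤ)) (y : Fin d → ℤ) (π : Fin N → ℕ → Fin d → ℤ)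
    (n : Fin N → ℕ) : ℝ≥0∞ :=
  ∑' m : Fin N → ℕ, if ∀ i, n i ≤ m i + T ∧ m i ≤ n i + T then hit A y π m else 0

/-- The expected weight of a hit at the centre of the window, started at `y` at the corner of the
window. -/
def FT {N d : ℕ} {Ω : Type u} [MeasurableSpace Ω] (P : Measure Ω) (S : Fin N → ℕ → Ω → Fin d → ℤ)
    (T : ℕ) (A : Finset (Fin d → ℤ)) (y : Fin d → ℤ) : ℝ≥0∞ :=
  ∫⁻ ω, hit A y (fun i n => S i n ω) (fun _ => T) *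
    (Zc T A y (fun i n => S i n ω) (fun _ => T))⁻¹ ∂P

/-- `n` and `m` are at distance larger than `T`. -/
def far {N : ℕ} (T : ℕ) (n m : Fin N → ℕ) : Prop := ∃ i, n i + T < m i ∨ m i + T < n i

/-- The pairs of hits at distance larger than `T`, seen from the minimum of the two times. -/
def HT {d : ℕ} (N T : ℕ) (A : Finset (Fin d → ℤ)) (y : Fin d → ℤ) : ℝ≥0∞ :=
  ∑' u : Fin N → ℕ, ∑' v : Fin N → ℕ, if (∀ i, u i = 0 ∨ v i = 0) ∧ ∃ i, T < u i + v i then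
    (∑ a ∈ A, q d (∑ i, u i) (a - y)) * ∑ a ∈ A, q d (∑ i, v i) (a - y) else 0

/-- The hits at times one of which is smaller than `T`. -/
def SM {d : ℕ} (N T : ℕ) (A : Finset (Fin d → ℤ)) (z : Fin d → ℤ) : ℝ≥0∞ :=
  ∑' n : Fin N → ℕ, if ∃ i, n i < T then ∑ a ∈ A, q d (∑ i, n i) (a - z) else 0

/-- The heat kernel on `ℤ`. -/
def hk (t : ℝ) (n : ℤ) : ℝ :=
  1 / (2 * Real.pi) * ∫ θ in (-Real.pi)..Real.pi, Real.cos (n * θ) *
    Real.exp (-(t * (2 - 2 * Real.cos θ)))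

/-! ### random walks -/

/-- Chapman-Kolmogorov, total mass, finite range, symmetry. -/
def S_CK : Prop := ∀ d : ℕ, 1 ≤ d →
  (∀ (m n : ℕ) (x : Fin d → ℤ), ∑' y, q d m y * q d n (x - y) = q d (m + n) x) ∧
  (∀ n : ℕ, ∑' x, q d n x = 1) ∧ (∀ (n : ℕ) (x : Fin d → ℤ), q d n x ≠ 0 → ‖x‖ ≤ n) ∧
  ∀ (n : ℕ) (x : Fin d → ℤ), q d n (-x) = q d n x

/-- The convolution of `k` Green functions. -/
def S_CV : Prop := ∀ d k : ℕ, 1 ≤ d → ∀ x : Fin d → ℤ, cv (fun x => ∑' n, q d n x) k x = GN d k x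

/-- The law of the sum of the walks. -/
def S_LAW : Prop := ∀ (N d : ℕ), 1 ≤ d → ∀ (Ω : Type u) [MeasurableSpace Ω] (P : Measure Ω)
  [IsProbabilityMeasure P] (S : Fin N → ℕ → Ω → Fin d → ℤ), Walks P S →
    ∀ (k : Fin N → ℕ) (y : Fin d → ℤ), P {ω | ∑ i, S i (k i) ω = y} = q d (∑ i, k i) y

/-- The Markov property. -/
def S_MK : Prop := ∀ (N d : ℕ), 1 ≤ d → ∀ (Ω : Type u) [MeasurableSpace Ω] (P : Measure Ω)
  [IsProbabilityMeasure P] (S : Fin N → ℕ → Ω → Fin d → ℤ), Walks P S →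
    ∀ (k : Fin N → ℕ) (h : (Fin d → ℤ) → (Fin N → ℕ → Fin d → ℤ) → ℝ≥0∞), (∀ y, Measurable (h y)) →
      ∫⁻ ω, h (∑ i, S i (k i) ω) (fun i n => S i (k i + n) ω - S i (k i) ω) ∂P =
        ∑' y, q d (∑ i, k i) y * ∫⁻ ω, h y (fun i n => S i n ω) ∂P

/-- Independence of sums of different walks. -/
def S_IND : Prop := ∀ (N d : ℕ), 1 ≤ d → ∀ (Ω : Type u) [MeasurableSpace Ω] (P : Measure Ω)
  [IsProbabilityMeasure P] (S : Fin N → ℕ → Ω → Fin d → ℤ), Walks P S →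
    ∀ u v : Fin N → ℕ, (∀ i, u i = 0 ∨ v i = 0) → ∀ B C : Set (Fin d → ℤ),
      P {ω | ∑ i, S i (u i) ω ∈ B ∧ ∑ i, S i (v i) ω ∈ C} =
        P {ω | ∑ i, S i (u i) ω ∈ B} * P {ω | ∑ i, S i (v i) ω ∈ C}

/-- The expected weight of a hit. -/
def S_WIN : Prop := ∀ (N d : ℕ), 1 ≤ d → ∀ (Ω : Type u) [MeasurableSpace Ω] (P : Measure Ω)
  [IsProbabilityMeasure P] (S : Fin N → ℕ → Ω → Fin d → ℤ), Walks P S →
    ∀ (T : ℕ) (A : Finset (Fin d → ℤ)) (z : Fin d → ℤ) (n : Fin N → ℕ), (∀ i, T ≤ n i) →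
      ∫⁻ ω, hit A z (fun i j => S i j ω) n * (Zc T A z (fun i j => S i j ω) n)⁻¹ ∂P =
        ∑' y, q d (∑ i, (n i - T)) (y - z) * FT P S T A y

/-- The pairs of hits at large distance. -/
def S_PAIR : Prop := ∀ (N d : ℕ), 1 ≤ d → ∀ (Ω : Type u) [MeasurableSpace Ω] (P : Measure Ω)
  [IsProbabilityMeasure P] (S : Fin N → ℕ → Ω → Fin d → ℤ), Walks P S →
    ∀ (T : ℕ) (A : Finset (Fin d → ℤ)) (z : Fin d → ℤ), (∑' n : Fin N → ℕ, ∑' m : Fin N → ℕ,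
      open Classical in if far T n m then
        P {ω | z + ∑ i, S i (n i) ω ∈ A ∧ z + ∑ i, S i (m i) ω ∈ A} else 0) ≤
      ∑' y, GN d N (y - z) * HT N T A y

/-- The pointwise inequalities. -/
def S_PW : Prop := ∀ (N T : ℕ) (H : Set (Fin N → ℕ)) (Z : (Fin N → ℕ) → ℝ≥0∞),
  (∀ n, Z n = ∑' m : Fin N → ℕ, open Classical in
    if m ∈ H ∧ ∀ i, n i ≤ m i + T ∧ m i ≤ n i + T then 1 else 0) →
  (open Classical in if H.Nonempty then (1 : ℝ≥0∞) else 0) ≤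
    (∑' n : Fin N → ℕ, open Classical in if n ∈ H then (Z n)⁻¹ else 0) ∧
  (∑' n : Fin N → ℕ, open Classical in if n ∈ H then (Z n)⁻¹ else 0) ≤
    (open Classical in if H.Nonempty then (1 : ℝ≥0∞) else 0) + ∑' n : Fin N → ℕ, ∑' m : Fin N → ℕ,
      open Classical in if n ∈ H ∧ m ∈ H ∧ far T n m then 1 else 0

/-- The two inequalities for the hitting probability. -/
def S_UL : Prop := ∀ (N d : ℕ), 1 ≤ d → ∀ (Ω : Type u) [MeasurableSpace Ω] (P : Measure Ω)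
  [IsProbabilityMeasure P] (S : Fin N → ℕ → Ω → Fin d → ℤ), Walks P S →
    ∀ (T : ℕ) (A : Finset (Fin d → ℤ)) (z : Fin d → ℤ),
      P {ω | ∃ n : Fin N → ℕ, z + ∑ i, S i (n i) ω ∈ A} ≤
        (∑' y, GN d N (y - z) * FT P S T A y) + SM N T A z ∧
      (∑' y, GN d N (y - z) * FT P S T A y) ≤
        P {ω | ∃ n : Fin N → ℕ, z + ∑ i, S i (n i) ω ∈ A} + ∑' y, GN d N (y - z) * HT N T A y

/-- The window function is bounded by one and has finite support. -/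
def S_FS : Prop := ∀ (N d : ℕ), 1 ≤ d → ∀ (Ω : Type u) [MeasurableSpace Ω] (P : Measure Ω)
  [IsProbabilityMeasure P] (S : Fin N → ℕ → Ω → Fin d → ℤ), Walks P S →
    ∀ (T : ℕ) (A : Finset (Fin d → ℤ)), (∀ y, FT P S T A y ≤ 1) ∧ {y | FT P S T A y ≠ 0}.Finite

/-! ### Green functions -/

/-- Bounds for the heat kernel on `ℤ`. -/
def S_HB : Prop := ∀ M : ℕ, ∃ C : ℝ, 0 < C ∧ ∀ t : ℝ, 0 ≤ t → ∀ n : ℤ,
  |hk t n| ≤ C / Real.sqrt (1 + t) * ((1 + t) / (1 + t + n ^ 2)) ^ M ∧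
  |hk t (n + 1) - hk t n| ≤ C / (1 + t) * ((1 + t) / (1 + t + n ^ 2)) ^ M

/-- Lower bound for the heat kernel on `ℤ` near the origin. -/
def S_HL : Prop := (∀ (t : ℝ) (n : ℤ), 0 ≤ t → 0 ≤ hk t n) ∧ ∃ δ c : ℝ, 0 < δ ∧ 0 < c ∧
  ∀ t : ℝ, 1 ≤ t → ∀ n : ℤ, |(n : ℝ)| ≤ δ * Real.sqrt t → c / Real.sqrt t ≤ hk t n

/-- The walk in continuous time: a walk with a Poisson number of steps. -/
def S_POI : Prop := ∀ (d : ℕ), 1 ≤ d → ∀ (t : ℝ), 0 ≤ t → ∀ z : Fin d → ℤ,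
  HasSum (fun n : ℕ => Real.exp (-(2 * d * t)) * (2 * d * t) ^ n / n.factorial * (q d n z).toReal)
    (∏ i, hk t (z i))

/-- The Green function as an integral of the heat kernel. -/
def S_GI : Prop := ∀ (d k : ℕ), 1 ≤ d → 1 ≤ k → ∀ z : Fin d → ℤ,
  GN d k z = ENNReal.ofReal ((2 * d) ^ k / (k - 1).factorial) *
    ∫⁻ t in Set.Ioi (0 : ℝ), ENNReal.ofReal (t ^ (k - 1) * ∏ i, hk t (z i))

/-- Upper bound. -/
def S_UP : Prop := ∀ (d k : ℕ), 2 * k < d → ∃ C : ℝ, 0 < C ∧ ∀ z : Fin d → ℤ,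
  GN d k z ≤ ENNReal.ofReal (C / (1 + ‖z‖) ^ (d - 2 * k))

/-- Lower bound. -/
def S_LOW : Prop := ∀ (d k : ℕ), 1 ≤ k → 2 * k < d → ∃ c : ℝ, 0 < c ∧ ∀ z : Fin d → ℤ,
  ENNReal.ofReal (c / (1 + ‖z‖) ^ (d - 2 * k)) ≤ GN d k z

/-- Gradient bound. -/
def S_GR : Prop := ∀ (d k : ℕ), 1 ≤ k → 2 * k < d → ∃ C : ℝ, 0 < C ∧
  ∀ (z : Fin d → ℤ) (i : Fin d),
    |(GN d k (z + Pi.single i 1)).toReal - (GN d k z).toReal| ≤ C / (1 + ‖z‖) ^ (d - 2 * k + 1)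

/-- The Green function varies slowly. -/
def S_RAT : Prop := ∀ (d k : ℕ), 1 ≤ k → 2 * k < d → ∀ y : Fin d → ℤ,
  Tendsto (fun z : Fin d → ℤ => (GN d k (y - z)).toReal / (GN d k z).toReal) cofinite (𝓝 1)

/-- A lattice sum. -/
def S_LS : Prop := ∀ (d m : ℕ), 1 ≤ m → m ≤ d → ∀ H : (Fin d → ℤ) → ℝ≥0∞, (∃ C : ℝ, ∀ y,
  H y ≤ ENNReal.ofReal (C / (1 + ‖y‖) ^ (d + m))) → ∀ ε : ℝ, 0 < ε → ∀ᶠ z : Fin d → ℤ in cofinite,
    ∑' y, ENNReal.ofReal (1 / (1 + ‖y - z‖) ^ m) * H y ≤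
      ENNReal.ofReal (1 / (1 + ‖z‖) ^ m) * (2 ^ m * (∑' y, H y) + ENNReal.ofReal ε)

/-- Bounds for the far pairs. -/
def S_HT : Prop := ∀ (N d : ℕ), 2 * N < d → ∀ A : Finset (Fin d → ℤ),
  (∃ C : ℝ, ∀ T y, HT N T A y ≤ ENNReal.ofReal (C / (1 + ‖y‖) ^ (2 * d - 2 * N))) ∧
  Tendsto (fun T : ℕ => ∑' y, HT N T A y) atTop (𝓝 0)

/-- The far pairs are negligible. -/
def S_RT : Prop := ∀ (N d : ℕ), 1 ≤ N → 2 * N < d → ∀ A : Finset (Fin d → ℤ), ∀ ε : ℝ, 0 < ε →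
  ∃ T : ℕ, ∀ᶠ z : Fin d → ℤ in cofinite,
    ∑' y, GN d N (y - z) * HT N T A y ≤ ENNReal.ofReal ε * GN d N z

/-- The hits at small times are negligible. -/
def S_SM : Prop := ∀ (N d : ℕ), 1 ≤ N → 2 * N < d → ∀ A : Finset (Fin d → ℤ), ∀ T : ℕ, ∀ ε : ℝ,
  0 < ε → ∀ᶠ z : Fin d → ℤ in cofinite, SM N T A z ≤ ENNReal.ofReal ε * GN d N z

/-- The main term. -/
def S_AT : Prop := ∀ (N d : ℕ), 1 ≤ N → 2 * N < d → ∀ F : (Fin d → ℤ) → ℝ≥0∞, (∀ y, F y ≤ 1) →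
  {y | F y ≠ 0}.Finite → Tendsto (fun z : Fin d → ℤ =>
    (∑' y, GN d N (y - z) * F y).toReal / (GN d N z).toReal) cofinite (𝓝 (∑' y, F y).toReal)

/-- The limit exists. -/
def S_FIN : Prop := ∀ (N d : ℕ), 1 ≤ N → 2 * N < d → ∀ A : Finset (Fin d → ℤ), A.Nonempty →
  ∀ (Ω : Type u) [MeasurableSpace Ω] (P : Measure Ω) [IsProbabilityMeasure P]
    (S : Fin N → ℕ → Ω → Fin d → ℤ), Walks P S → ∃ L : ℝ, Tendsto (fun z : Fin d → ℤ =>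
      (P {ω | ∃ n : Fin N → ℕ, z + ∑ i, S i (n i) ω ∈ A}).toReal / (GN d N z).toReal) cofinite (𝓝 L)

end

end Pool.Agent.Q88.MR
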